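import Pool.Agent.U541.JT.Op
import Pool.Agent.R277.JT.Compl

/-!
# Non-separable subspaces of the dual of the James tree space contain its predual
-/

set_option autoImplicit false
set_option linter.unusedSectionVars false

open Set Filter Topology

namespace Pool.Agent.U541.JT

open Pool.Agent.R277.JT

lemma exists_delta : ∃ δ : ℕ → ℝ, (∀ n, 0 < δ n) ∧ Antitone δ ∧
    ∀ F : Finset Tree, ∑ α ∈ F, δ (lev (par α)) ≤ 1 / 6 := by
  classical
  have : Encodable Tree := Encodable.ofCountable Tree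
  obtain ⟨ω, hω, σ, hσ, hσ6⟩ := posSumOfEncodable (show (0:ℝ) < 1 / 6 by norm_num) Tree
  have hne : ∀ n, (lof (n + 2)).Nonempty := fun n =>
    ⟨(show Tree from []), mem_lof.2 (by rw [lev_tree]; simp)⟩
  refine ⟨fun n => (lof (n + 2)).inf' (hne n) ω, fun n => ?_, ?_, ?_⟩
  · rw [Finset.lt_inf'_iff]
    exact fun i _ => hω i
  · intro a b hab
    apply Finset.inf'_mono
    intro i hi
    rw [mem_lof] at hi ⊢
    omega
  · intro F
    have h1 : ∑ α ∈ F, (lof (lev (par α) + 2)).inf' (hne (lev (par α))) ω ≤ ∑ α ∈ F, ω α := by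
      apply Finset.sum_le_sum
      intro α _
      apply Finset.inf'_le
      rw [mem_lof, lev_par]
      omega
    exact h1.trans ((sum_le_hasSum F (fun i _ => (hω i).le) hσ).trans hσ6)

theorem main {Y : Submodule ℝ (D Tree)}
    (hY : ¬ TopologicalSpace.IsSeparable (Y : Set (D Tree))) :
    ∃ T : D Tree →L[ℝ] D Tree, (∀ α, T (cd α) ∈ Y) ∧ ∀ f, 1 / 2 * ‖f‖ ≤ ‖T f‖ := by
  obtain ⟨A, z, M, hA, hzY, hM, hz⟩ := exists_family hY
  obtain ⟨s, hs1, hs2, hs3⟩ := exists_enum z
  have hF : Fam A z s := by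
    refine ⟨hA, hs1, hs2, fun c _ δ hδ => ?_⟩
    exact approx (hs1 c) (fun d hd => hs3 c d hd) hδ
  obtain ⟨δ, hδ, hδa, hη⟩ := exists_delta
  obtain ⟨K, m, J, c, H, h⟩ := exists_sys hF hδ
  refine ⟨TT h hF (fun n => (hδ n).le) hM hη, fun α => ?_, fun f => ?_⟩
  · rw [TT_cd]
    exact Y.sub_mem (hzY _ (h.subA _ (h.mem _))) (hzY _ (h.subA _ (h.mem _)))
  · exact TT_lower h hF hz hδa (fun n => (hδ n).le) hM hη (by norm_num) f

open UniformSpace

/-- The theorem for the dual of the completion. -/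
theorem main' (Bi : Set (StrongDual ℝ (Completion (Pre Tree))))
    (hBi : ∀ f ∈ Bi, ∃ α : Tree, eT f = cd α)
    (Y : Submodule ℝ (StrongDual ℝ (Completion (Pre Tree))))
    (hYc : IsClosed (Y : Set (StrongDual ℝ (Completion (Pre Tree)))))
    (hY : ¬ TopologicalSpace.SeparableSpace Y) :
    ∃ Z : Submodule ℝ Y, IsClosed (Z : Set Y) ∧
      Nonempty (Z ≃L[ℝ] (Submodule.span ℝ Bi).topologicalClosure) := by
  classical
  -- transfer to the dual of the finitely supported functions
  let Y' : Submodule ℝ (D Tree) :=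
    Y.map (eT.toLinearEquiv : StrongDual ℝ (Completion (Pre Tree)) →ₗ[ℝ] D Tree)
  have hY' : ¬ TopologicalSpace.IsSeparable (Y' : Set (D Tree)) := by
    intro h
    apply hY
    have h1 : TopologicalSpace.IsSeparable (Y : Set (StrongDual ℝ (Completion (Pre Tree)))) := by
      have h2 := h.image eT.symm.continuous
      refine h2.mono fun y hy => ⟨eT y, ⟨y, hy, rfl⟩, eT.symm_apply_apply y⟩
    exact h1.separableSpace
  obtain ⟨T, hT1, hT2⟩ := main hY'
  let T0 : StrongDual ℝ (Completion (Pre Tree)) →L[ℝ] StrongDual ℝ (Completion (Pre Tree)) :=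
    (eT.symm.toContinuousLinearEquiv : D Tree →L[ℝ] StrongDual ℝ (Completion (Pre Tree))).comp
      (T.comp (eT.toContinuousLinearEquiv : StrongDual ℝ (Completion (Pre Tree)) →L[ℝ] D Tree))
  have hT0 : ∀ f, T0 f = eT.symm (T (eT f)) := fun f => rfl
  have hlow : ∀ f, 1 / 2 * ‖f‖ ≤ ‖T0 f‖ := by
    intro f
    rw [hT0, LinearIsometryEquiv.norm_map, ← eT.norm_map f]
    exact hT2 _
  have hspan : ∀ f ∈ (Submodule.span ℝ Bi).topologicalClosure, T0 f ∈ Y := by
    have hcl : IsClosed (T0 ⁻¹' (Y : Set (StrongDual ℝ (Completion (Pre Tree))))) :=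
      hYc.preimage T0.continuous
    have hsub : Submodule.span ℝ Bi ≤
        Y.comap (T0 : StrongDual ℝ (Completion (Pre Tree)) →ₗ[ℝ] StrongDual ℝ (Completion (Pre Tree))) := by
      rw [Submodule.span_le]
      intro f hf
      obtain ⟨α, hα⟩ := hBi f hf
      show T0 f ∈ Y
      rw [hT0, hα]
      obtain ⟨y, hy, hy2⟩ := hT1 α
      have : eT.symm (T (cd α)) = y := by
        rw [← hy2]
        exact eT.symm_apply_apply y
      rw [this]
      exact hy
    intro f hf
    have hf' : f ∈ closure (Submodule.span ℝ Bi : Set (StrongDual ℝ (Completion (Pre Tree)))) := hf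
    exact closure_minimal (fun g hg => hsub hg) hcl hf'
  have hYcomp : CompleteSpace Y := hYc.completeSpace_coe
  have hBcomp : CompleteSpace (Submodule.span ℝ Bi).topologicalClosure :=
    (Submodule.isClosed_topologicalClosure _).completeSpace_coe
  let U : (Submodule.span ℝ Bi).topologicalClosure →L[ℝ] Y :=
    (T0.comp (Submodule.span ℝ Bi).topologicalClosure.subtypeL).codRestrict Y
      (fun f : (Submodule.span ℝ Bi).topologicalClosure => hspan f.1 f.2)
  have hU : ∀ f, 1 / 2 * ‖f‖ ≤ ‖U f‖ := fun f => hlow f.1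
  exact range_of_bound (E := Y) (F := (Submodule.span ℝ Bi).topologicalClosure) (c := 1 / 2) U
    (by norm_num) hU

end Pool.Agent.U541.JT
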