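import Mathlib

/-!
# Uncountable sets and functions on them
-/

set_option autoImplicit false
set_option linter.unusedSectionVars false

open Set Filter Topology

namespace Pool.Agent.U541.JT

/-- pigeonhole -/
lemma pigeon {α : Type*} {J : Set α} (hJ : ¬ J.Countable) (f : α → ℕ) :
    ∃ n, ¬ {c ∈ J | f c ≤ n}.Countable := by
  by_contra hc
  push Not at hc
  apply hJ
  have : J = ⋃ n, {c ∈ J | f c ≤ n} := by
    ext c
    simp only [mem_iUnion, mem_ofPred_eq]
    exact ⟨fun h => ⟨f c, h, le_rfl⟩, fun ⟨_, h, _⟩ => h⟩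
  rw [this]
  exact countable_iUnion hc

lemma pigeon_ex {α : Type*} {J : Set α} (hJ : ¬ J.Countable) {P : α → ℕ → Prop}
    (h : ∀ c ∈ J, ∃ n, P c n) (hP : ∀ c m n, m ≤ n → P c m → P c n) :
    ∃ n, ¬ {c ∈ J | P c n}.Countable := by
  classical
  choose! f hf using h
  obtain ⟨n, hn⟩ := pigeon hJ f
  refine ⟨n, fun hc => hn (hc.mono ?_)⟩
  rintro c ⟨h1, h2⟩
  exact ⟨h1, hP c _ _ h2 (hf c h1)⟩

/-- a function on an uncountable set is constant or injective on an uncountable subset -/
lemma const_or_inj {α β : Type*} {J : Set α} (hJ : ¬ J.Countable) (g : α → β) :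
    ∃ J' ⊆ J, ¬ J'.Countable ∧ (InjOn g J' ∨ ∃ v, ∀ c ∈ J', g c = v) := by
  by_cases h : ∃ v, ¬ (J ∩ g ⁻¹' {v}).Countable
  · obtain ⟨v, hv⟩ := h
    exact ⟨_, inter_subset_left, hv, Or.inr ⟨v, fun c hc => hc.2⟩⟩
  · push Not at h
    obtain ⟨J', hJ', hb⟩ := SurjOn.exists_subset_injOn_image_eq (surjOn_image g J)
    refine ⟨J', hJ', fun hc => hJ ?_, Or.inl hb.1⟩
    have h1 : (g '' J).Countable := by rw [← hb.2]; exact hc.image g
    have h2 : J ⊆ ⋃ v ∈ g '' J, (J ∩ g ⁻¹' {v}) := by
      intro c hc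
      simp only [mem_iUnion]
      exact ⟨g c, mem_image_of_mem g hc, hc, rfl⟩
    exact (h1.biUnion fun v _ => h v).mono h2

lemma const_or_inj_fin {α β : Type*} (g : ℕ → α → β) (K : ℕ) {J : Set α} (hJ : ¬ J.Countable) :
    ∃ J' ⊆ J, ¬ J'.Countable ∧ ∀ k < K, (InjOn (g k) J' ∨ ∃ v, ∀ c ∈ J', g k c = v) := by
  induction K with
  | zero => exact ⟨J, Subset.rfl, hJ, fun k hk => absurd hk (Nat.not_lt_zero k)⟩
  | succ K ih =>
    obtain ⟨J1, h1, h2, h3⟩ := ih
    obtain ⟨J2, h4, h5, h6⟩ := const_or_inj h2 (g K)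
    refine ⟨J2, h4.trans h1, h5, fun k hk => ?_⟩
    rcases Nat.lt_succ_iff_lt_or_eq.1 hk with h | h
    · rcases h3 k h with h7 | ⟨v, h7⟩
      · exact Or.inl (h7.mono h4)
      · exact Or.inr ⟨v, fun c hc => h7 c (h4 hc)⟩
    · rw [h]; exact h6

/-- all but countably many points of a set are condensation points -/
lemma cond_pts {α X : Type*} [TopologicalSpace X] [SecondCountableTopology X] (Θ : α → X)
    (J : Set α) : {c ∈ J | ∃ V ∈ 𝓝 (Θ c), (J ∩ Θ ⁻¹' V).Countable}.Countable := by
  have hb := TopologicalSpace.isBasis_countableBasis X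
  have hc := TopologicalSpace.countable_countableBasis X
  let G : Set (Set X) := {B ∈ TopologicalSpace.countableBasis X | (J ∩ Θ ⁻¹' B).Countable}
  have hG : G.Countable := hc.mono fun B hB => hB.1
  have h1 : (⋃ B ∈ G, (J ∩ Θ ⁻¹' B)).Countable := hG.biUnion fun B hB => hB.2
  apply h1.mono
  rintro c ⟨hcJ, V, hV, hVc⟩
  obtain ⟨B, hB, hcB, hBV⟩ := hb.mem_nhds_iff.1 hV
  simp only [mem_iUnion]
  exact ⟨B, ⟨hB, hVc.mono (inter_subset_inter_right _ (preimage_mono hBV))⟩, hcJ, hcB⟩

/-- simultaneous choice of points avoiding each other -/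
lemma choose_reps {ι α β : Type*} [DecidableEq ι] (s : Finset ι) (J : ι → Set α) (hJ : ∀ i ∈ s, ¬ (J i).Countable)
    (g : ℕ → α → β) (K : ℕ) (H : Set β) (hH : H.Countable) [Nonempty α] :
    ∃ c : ι → α, (∀ i ∈ s, c i ∈ J i) ∧
      (∀ i ∈ s, ∀ k < K, InjOn (g k) (J i) → g k (c i) ∉ H) ∧
      (∀ i ∈ s, ∀ j ∈ s, i ≠ j → ∀ k < K, ∀ l < K, InjOn (g k) (J i) → InjOn (g l) (J j) →
        g k (c i) ≠ g l (c j)) := by
  induction s using Finset.induction_on with
  | empty =>
    exact ⟨fun _ => Classical.arbitrary α, by simp, by simp, by simp⟩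
  | insert a s ha ih =>
    obtain ⟨c, h1, h2, h3⟩ := ih (fun i hi => hJ i (Finset.mem_insert_of_mem hi))
    let H' : Set β := H ∪ ⋃ j ∈ (s : Set ι), ⋃ l ∈ (Iio K), {g l (c j)}
    have hH' : H'.Countable := hH.union ((s.finite_toSet.biUnion fun j _ =>
      (finite_Iio K).biUnion fun l _ => finite_singleton _).countable)
    have hbad : (⋃ k ∈ {k | k < K ∧ InjOn (g k) (J a)}, {c ∈ J a | g k c ∈ H'}).Countable := by
      apply Countable.biUnion (to_countable _)
      rintro k ⟨hk, hinj⟩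
      have : MapsTo (g k) {c ∈ J a | g k c ∈ H'} H' := fun c hc => hc.2
      exact this.countable_of_injOn (hinj.mono fun c hc => hc.1) hH'
    have hne : ¬ (J a ⊆ ⋃ k ∈ {k | k < K ∧ InjOn (g k) (J a)}, {c ∈ J a | g k c ∈ H'}) :=
      fun h => hJ a (Finset.mem_insert_self a s) (hbad.mono h)
    obtain ⟨x, hx1, hx2⟩ := not_subset.1 hne
    have hx3 : ∀ k < K, InjOn (g k) (J a) → g k x ∉ H' := by
      intro k hk hinj hcon
      apply hx2
      simp only [mem_iUnion]
      exact ⟨k, ⟨hk, hinj⟩, hx1, hcon⟩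
    have hH'' : ∀ j ∈ s, ∀ l < K, g l (c j) ∈ H' := by
      intro j hj l hl
      right
      simp only [mem_iUnion]
      exact ⟨j, hj, l, hl, rfl⟩
    refine ⟨Function.update c a x, ?_, ?_, ?_⟩
    · intro i hi
      by_cases hia : i = a
      · subst hia; rw [Function.update_self]; exact hx1
      · rw [Function.update_of_ne hia]
        exact h1 i (Finset.mem_of_mem_insert_of_ne hi hia)
    · intro i hi k hk hinj
      by_cases hia : i = a
      · subst hia; rw [Function.update_self]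
        exact fun h => hx3 k hk hinj (Or.inl h)
      · rw [Function.update_of_ne hia]
        exact h2 i (Finset.mem_of_mem_insert_of_ne hi hia) k hk hinj
    · intro i hi j hj hij k hk l hl hi1 hj1
      by_cases hia : i = a
      · subst hia
        have hja : j ≠ i := hij.symm
        rw [Function.update_self, Function.update_of_ne hja]
        intro h
        exact hx3 k hk hi1 (h ▸ hH'' j (Finset.mem_of_mem_insert_of_ne hj hja) l hl)
      · by_cases hja : j = a
        · subst hja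
          rw [Function.update_self, Function.update_of_ne hia]
          intro h
          exact hx3 l hl hj1 (h ▸ hH'' i (Finset.mem_of_mem_insert_of_ne hi hia) k hk)
        · rw [Function.update_of_ne hia, Function.update_of_ne hja]
          exact h3 i (Finset.mem_of_mem_insert_of_ne hi hia) j
            (Finset.mem_of_mem_insert_of_ne hj hja) hij k hk l hl hi1 hj1

end Pool.Agent.U541.JT
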