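import Pool.Agent.R277.JT.Struct
import Pool.Agent.U541.JT.Unc

/-!
# Non-separable sets of functionals on the James tree space
-/

set_option autoImplicit false
set_option linter.unusedSectionVars false

open Set Filter Topology

namespace Pool.Agent.U541.JT

open Pool.Agent.R277.JT

/-- the coordinate functionals -/
noncomputable def cd {I : Type*} [PartialOrder I] [Forest I] (i : I) : D I :=
  LinearMap.mkContinuous
    { toFun := fun x : Pre I => x.val i
      map_add' := fun x y => val_add x y i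
      map_smul' := fun c x => val_smul c x i } 1 (fun x => by rw [one_mul]; exact val_le x i)

lemma cd_apply {I : Type*} [PartialOrder I] [Forest I] (i : I) (x : Pre I) : cd i x = x.val i := rfl

/-- the levels below `k`, as a finite set -/
noncomputable def lof (k : ℕ) : Finset Tree := (Lev.fin (I := Tree) k).toFinset

lemma mem_lof {k : ℕ} {i : Tree} : i ∈ lof k ↔ lev i < k := by
  unfold lof
  rw [Set.Finite.mem_toFinset]
  rfl

lemma res_lo_eq (x : Pre Tree) (k : ℕ) : res (lo Tree k) x = ∑ i ∈ lof k, x.val i • ev i := by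
  classical
  apply ext_val
  intro j
  rw [val_res]
  have h2 : (∑ i ∈ lof k, x.val i • ev i).val j = ∑ i ∈ lof k, x.val i * (ev i : Pre Tree).val j := by
    have h3 := ss_sum {j} (lof k) (fun i => x.val i • (ev i : Pre Tree))
    simpa [ss, val_smul] using h3
  rw [h2]
  simp only [val_ev, mul_ite, mul_one, mul_zero]
  rw [Finset.sum_ite_eq']
  by_cases h : lev j < k
  · rw [if_pos (show j ∈ lo Tree k from h), if_pos (mem_lof.2 h)]
  · rw [if_neg (show j ∉ lo Tree k from h), if_neg (fun h' => h (mem_lof.1 h'))]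

lemma cut_lo_eq (f : D Tree) (k : ℕ) : cut f (lo Tree k) = ∑ i ∈ lof k, f (ev i) • cd i := by
  ext x
  rw [cut_apply, res_lo_eq, map_sum, _root_.sum_apply]
  apply Finset.sum_congr rfl
  intro i _
  rw [map_smul, _root_.smul_apply, smul_eq_mul, smul_eq_mul, cd_apply, mul_comm]

lemma norm_cut_lo_le (f : D Tree) (k : ℕ) : ‖cut f (lo Tree k)‖ ≤ ∑ i ∈ lof k, |f (ev i)| := by
  apply ContinuousLinearMap.opNorm_le_bound _ (Finset.sum_nonneg fun _ _ => abs_nonneg _)
  intro x
  rw [cut_lo_eq, _root_.sum_apply, Real.norm_eq_abs, Finset.sum_mul]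
  refine (Finset.abs_sum_le_sum_abs _ _).trans (Finset.sum_le_sum fun i _ => ?_)
  rw [_root_.smul_apply, smul_eq_mul, abs_mul, cd_apply]
  exact mul_le_mul_of_nonneg_left (val_le x i) (abs_nonneg _)

instance : Countable Tree := inferInstanceAs (Countable (List Bool))

/-- if only countably many branch limits do not vanish on `Y`, then `Y` is separable -/
lemma sep_of_countable {Y : Set (D Tree)}
    (hC : {c : ℕ → Bool | ∃ y ∈ Y, Lm (br c) y ≠ 0}.Countable) :
    TopologicalSpace.IsSeparable Y := by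
  classical
  set C := {c : ℕ → Bool | ∃ y ∈ Y, Lm (br c) y ≠ 0} with hCdef
  let G : Set (D Tree) := range (fun i : Tree => (cd i : D Tree)) ∪
    ⋃ c ∈ C, range (fun k : ℕ => sg (br c) k)
  have hG : G.Countable := (countable_range _).union (hC.biUnion fun c _ => countable_range _)
  have hs : TopologicalSpace.IsSeparable (closure (Submodule.span ℝ G : Set (D Tree))) :=
    (hG.isSeparable.span).closure
  apply hs.mono
  intro y hy
  rw [Metric.mem_closure_iff]
  intro ε hε
  obtain ⟨F0, hF0⟩ := structA y (half_pos hε)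
  obtain ⟨k, hk⟩ := hF0 F0 Finset.Subset.rfl
  have hk' := hk k le_rfl
  refine ⟨cut y (lo Tree k) + ∑ c ∈ F0, Lm (br c) y • sg (br c) k, ?_, ?_⟩
  · apply Submodule.add_mem
    · rw [cut_lo_eq]
      apply Submodule.sum_mem
      intro i _
      apply Submodule.smul_mem
      exact Submodule.subset_span (Or.inl ⟨i, rfl⟩)
    · apply Submodule.sum_mem
      intro c _
      by_cases h : Lm (br c) y = 0
      · rw [h, zero_smul]; exact Submodule.zero_mem _
      · apply Submodule.smul_mem
        apply Submodule.subset_span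
        right
        simp only [mem_iUnion]
        exact ⟨c, ⟨y, hy, h⟩, k, rfl⟩
  · rw [dist_eq_norm]
    have h1 : y - (cut y (lo Tree k) + ∑ c ∈ F0, Lm (br c) y • sg (br c) k) =
        cut y (lv Tree k) - ∑ c ∈ F0, Lm (br c) y • sg (br c) k := by
      nth_rewrite 1 [← cut_lo_add y k]
      abel
    rw [h1]
    linarith

/-- the initial uncountable family -/
lemma exists_family {Y : Submodule ℝ (D Tree)}
    (hY : ¬ TopologicalSpace.IsSeparable (Y : Set (D Tree))) :
    ∃ (A : Set (ℕ → Bool)) (z : (ℕ → Bool) → D Tree) (M : ℕ), ¬ A.Countable ∧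
      (∀ c ∈ A, z c ∈ Y) ∧ (∀ c ∈ A, ‖z c‖ ≤ M) ∧ ∀ c ∈ A, Lm (br c) (z c) = 1 := by
  classical
  have hC : ¬ {c : ℕ → Bool | ∃ y ∈ (Y : Set (D Tree)), Lm (br c) y ≠ 0}.Countable :=
    fun h => hY (sep_of_countable h)
  have h1 : ∀ c ∈ {c : ℕ → Bool | ∃ y ∈ (Y : Set (D Tree)), Lm (br c) y ≠ 0},
      ∃ z : D Tree, z ∈ Y ∧ Lm (br c) z = 1 := by
    rintro c ⟨y, hy, hne⟩
    refine ⟨(Lm (br c) y)⁻¹ • y, Y.smul_mem _ hy, ?_⟩
    rw [Lm_smul, inv_mul_cancel₀ hne]
  choose! z hz1 hz2 using h1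
  obtain ⟨M, hM⟩ := pigeon_ex hC (P := fun c n => ‖z c‖ ≤ (n : ℝ))
    (fun c _ => exists_nat_ge ‖z c‖) (fun c m n hmn h => h.trans (Nat.cast_le.2 hmn))
  exact ⟨_, z, M, hM, fun c hc => hz1 c hc.1, fun c hc => hc.2, fun c hc => hz2 c hc.1⟩

/-- enumeration of the supports -/
lemma exists_enum (z : (ℕ → Bool) → D Tree) : ∃ s : ℕ → (ℕ → Bool) → (ℕ → Bool),
    (∀ c, Function.Injective fun k => s k c) ∧ (∀ c, s 0 c = c) ∧
    ∀ c d, Lm (br d) (z c) ≠ 0 → ∃ k, s k c = d := by
  classical
  have key : ∀ c : ℕ → Bool, ∃ s : ℕ → (ℕ → Bool), Function.Injective s ∧ s 0 = c ∧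
      ∀ d, Lm (br d) (z c) ≠ 0 → ∃ k, s k = d := by
    intro c
    have : Infinite (ℕ → Bool) := inferInstance
    let e : ℕ ↪ (ℕ → Bool) := Infinite.natEmbedding _
    let S : Set (ℕ → Bool) := insert c (Function.support fun d => (Lm (br d) (z c)) ^ 2) ∪ range e
    have hS : S.Countable := (((summable_Lm_sq (z c)).countable_support).insert c).union
      (countable_range _)
    have hSi : S.Infinite := (infinite_range_of_injective e.injective).mono subset_union_right
    have h1 : Countable S := hS.to_subtype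
    have h2 : Infinite S := hSi.to_subtype
    obtain ⟨E⟩ : Nonempty (ℕ ≃ S) := by
      have := nonempty_equiv_of_countable (α := ℕ) (β := S)
      exact this
    have hcS : c ∈ S := Or.inl (mem_insert _ _)
    let k0 := E.symm ⟨c, hcS⟩
    refine ⟨fun k => (E (Equiv.swap 0 k0 k) : ℕ → Bool), ?_, ?_, ?_⟩
    · intro a b hab
      exact (Equiv.swap 0 k0).injective (E.injective (Subtype.ext hab))
    · show (E (Equiv.swap 0 k0 0) : ℕ → Bool) = c
      rw [Equiv.swap_apply_left]
      show ((E (E.symm ⟨c, hcS⟩) : S) : ℕ → Bool) = c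
      rw [Equiv.apply_symm_apply]
    · intro d hd
      have hdS : d ∈ S := Or.inl (mem_insert_of_mem _ (by
        rw [Function.mem_support]; exact pow_ne_zero 2 hd))
      refine ⟨Equiv.swap 0 k0 (E.symm ⟨d, hdS⟩), ?_⟩
      show ((E (Equiv.swap 0 k0 (Equiv.swap 0 k0 (E.symm ⟨d, hdS⟩))) : S) : ℕ → Bool) = d
      rw [Equiv.swap_apply_self, Equiv.apply_symm_apply]
  choose s h1 h2 h3 using key
  exact ⟨fun k c => s c k, h1, h2, fun c d h => h3 c d h⟩

/-- approximation by finitely many branches -/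
lemma approx {f : D Tree} {s : ℕ → (ℕ → Bool)} (hs : Function.Injective s)
    (hsupp : ∀ d, Lm (br d) f ≠ 0 → ∃ k, s k = d) {δ : ℝ} (hδ : 0 < δ) :
    ∃ K0, ∀ K, K0 ≤ K → ∃ m0, ∀ m, m0 ≤ m →
      ‖cut f (lv Tree m) - ∑ k ∈ Finset.range K, Lm (br (s k)) f • sg (br (s k)) m‖ ≤ δ := by
  classical
  obtain ⟨F0, hF0⟩ := structA f hδ
  have h1 : ∀ d : ℕ → Bool, ∃ k, Lm (br d) f ≠ 0 → s k = d := by
    intro d
    by_cases h : Lm (br d) f = 0
    · exact ⟨0, fun h' => absurd h h'⟩
    · obtain ⟨k, hk⟩ := hsupp d h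
      exact ⟨k, fun _ => hk⟩
  choose κ hκ using h1
  refine ⟨F0.sup κ + 1, fun K hK => ?_⟩
  obtain ⟨m0, hm0⟩ := hF0 (F0 ∪ (Finset.range K).image s) Finset.subset_union_left
  refine ⟨m0, fun m hm => ?_⟩
  have h2 := hm0 m hm
  have h3 : ∑ c ∈ F0 ∪ (Finset.range K).image s, Lm (br c) f • sg (br c) m =
      ∑ k ∈ Finset.range K, Lm (br (s k)) f • sg (br (s k)) m := by
    rw [← Finset.sum_image (s := Finset.range K) (g := s)
      (f := fun c => Lm (br c) f • sg (br c) m) (fun a _ b _ h => hs h)]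
    symm
    apply Finset.sum_subset Finset.subset_union_right
    intro d hd hd'
    have hdF : d ∈ F0 := by
      rcases Finset.mem_union.1 hd with h | h
      · exact h
      · exact absurd h hd'
    have h0 : Lm (br d) f = 0 := by
      by_contra hne
      apply hd'
      rw [Finset.mem_image]
      refine ⟨κ d, ?_, hκ d hne⟩
      rw [Finset.mem_range]
      have := Finset.le_sup (f := κ) hdF
      omega
    rw [h0, zero_smul]
  rwa [h3] at h2

end Pool.Agent.U541.JT
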