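import Pool.Agent.U541.JT.Upper
import Pool.Agent.R277.JT.Lower

/-!
# The lower estimate
-/

set_option autoImplicit false
set_option linter.unusedSectionVars false

open Set Filter Topology

namespace Pool.Agent.U541.JT

open Pool.Agent.R277.JT

/-- the embedding of the tree onto a cone -/
def cn (α : Tree) : Tree := (show Tree from true :: (show List Bool from α))

lemma lev_cn (α : Tree) : lev (cn α) = lev α + 1 := rfl

lemma cn_le {α β : Tree} : cn α ≤ cn β ↔ α ≤ β := by
  rw [tree_le, tree_le]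
  exact List.prefix_cons_inj true

lemma cn_inj {α β : Tree} (h : cn α = cn β) : α = β := by
  have h1 : cn α ≤ cn β := h.le
  have h2 : cn β ≤ cn α := h.symm.le
  exact le_antisymm (cn_le.1 h1) (cn_le.1 h2)

lemma exists_cn {α γ : Tree} (h : cn α ≤ γ) : ∃ γ', cn γ' = γ := by
  rw [tree_le] at h
  obtain ⟨t, ht⟩ := h
  exact ⟨(show Tree from (show List Bool from α) ++ t), ht⟩

lemma lev_par_cn (α : Tree) : lev (par (cn α)) = lev α := by
  rw [lev_par, lev_cn]
  rfl

lemma par_cn {α : Tree} (h : 1 ≤ lev α) : par (cn α) = cn (par α) := by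
  have h1 : (show List Bool from α) ≠ [] := by
    intro h'
    rw [lev_tree, h'] at h
    simp at h
  change (true :: (show List Bool from α)).dropLast = true :: (show List Bool from α).dropLast
  exact List.dropLast_cons_of_ne_nil h1

/-- preimages of segments under order embeddings -/
lemma seg_preimage {ν : Tree → Tree} (hν : ∀ α β, ν α ≤ ν β ↔ α ≤ β) {Q : Finset Tree} (hQ : IsSeg Q)
    (hinj : InjOn ν (ν ⁻¹' (Q : Set Tree))) (hne : (Q.preimage ν hinj).Nonempty) :
    IsSeg (Q.preimage ν hinj) := by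
  obtain ⟨l, u, hlu, hm⟩ := hQ
  obtain ⟨a, ha1, ha2⟩ := (Q.preimage ν hinj).exists_minimal hne
  obtain ⟨e, he1, he2⟩ := (Q.preimage ν hinj).exists_maximal hne
  have hcomp : ∀ x ∈ Q.preimage ν hinj, ∀ y ∈ Q.preimage ν hinj, x ≤ y ∨ y ≤ x := by
    intro x hx y hy
    rw [Finset.mem_preimage, hm] at hx hy
    rcases Forest.comp _ _ _ hx.2 hy.2 with h | h
    · exact Or.inl ((hν _ _).1 h)
    · exact Or.inr ((hν _ _).1 h)
  have hmin : ∀ b ∈ Q.preimage ν hinj, a ≤ b := by
    intro b hb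
    rcases hcomp a ha1 b hb with h | h
    · exact h
    · exact ha2 hb h
  have hmax : ∀ b ∈ Q.preimage ν hinj, b ≤ e := by
    intro b hb
    rcases hcomp e he1 b hb with h | h
    · exact he2 hb h
    · exact h
  refine ⟨a, e, hmin e he1, fun b => ⟨fun hb => ⟨hmin b hb, hmax b hb⟩, fun hb => ?_⟩⟩
  rw [Finset.mem_preimage, hm] at ha1 he1 ⊢
  exact ⟨ha1.1.trans ((hν _ _).2 hb.1), ((hν _ _).2 hb.2).trans he1.2⟩

/-- transport along an order embedding -/
noncomputable def pu (ν : Tree → Tree) : Pre Tree →ₗ[ℝ] Pre Tree :=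
  (show (Tree →₀ ℝ) →ₗ[ℝ] (Tree →₀ ℝ) from Finsupp.lmapDomain ℝ ℝ ν)

lemma pu_ev (ν : Tree → Tree) (i : Tree) : pu ν (ev i) = ev (ν i) := by
  change Finsupp.lmapDomain ℝ ℝ ν (Finsupp.single i 1) = Finsupp.single (ν i) 1
  rw [Finsupp.lmapDomain_apply, Finsupp.mapDomain_single]

lemma pu_val {ν : Tree → Tree} (hν : Function.Injective ν) (x : Pre Tree) (i : Tree) :
    (pu ν x).val (ν i) = x.val i := Finsupp.mapDomain_apply hν _ _

lemma pu_val_not {ν : Tree → Tree} (x : Pre Tree) {i : Tree} (hi : i ∉ range ν) :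
    (pu ν x).val i = 0 := Finsupp.mapDomain_of_notMem_range _ _ hi

lemma norm_pu_le {ν : Tree → Tree} (hν : ∀ α β, ν α ≤ ν β ↔ α ≤ β) (x : Pre Tree) :
    ‖pu ν x‖ ≤ ‖x‖ := by
  classical
  have hinj : Function.Injective ν := by
    intro a b h
    exact le_antisymm ((hν _ _).1 h.le) ((hν _ _).1 h.symm.le)
  have h := sum_sq_abs ({()} : Finset Unit) (fun _ => pu ν x) x
    (fun _ S => S.preimage ν hinj.injOn) ?_ ?_ ?_ ?_
  · rw [Finset.sum_singleton] at h
    exact le_of_sq_le_sq h (norm_nonneg x)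
  · intro _ _ S hS hne
    exact seg_preimage hν hS _ hne
  · intro _ _ S _
    unfold ss
    rw [← Finset.sum_preimage ν S hinj.injOn (fun i => (pu ν x).val i)]
    · exact Finset.sum_congr rfl fun i _ => pu_val hinj x i
    · intro i _ hi
      exact pu_val_not x hi
  · intro _ _ S S' _ _ hd
    rw [Finset.disjoint_left] at hd ⊢
    intro i hi hi'
    rw [Finset.mem_preimage] at hi hi'
    exact hd hi hi'
  · intro i _ j _ hij
    exact absurd rfl hij

section lower

variable {A : Set Br} {z : Br → D Tree} {s : ℕ → Br → Br} {δ : ℕ → ℝ} {K m : ℕ → ℕ}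
    {J : Tree → Set Br} {c : Tree → Br} {H : ℕ → Finset Br}

/-- the image nodes -/
def nu (m : ℕ → ℕ) (c : Tree → Br) (α : Tree) : Tree := br (c (cn α)) (m (lev (cn α)))

lemma zero_inj (hF : Fam A z s) (S : Set Br) : InjOn (s 0) S := by
  intro a _ b _ h
  rwa [hF.zero, hF.zero] at h

lemma Sys.K0 (h : Sys A z s δ K m J c H) (n : ℕ) : 0 < K n := h.K1 n

lemma nu_mono (h : Sys A z s δ K m J c H) (hF : Fam A z s) {α β : Tree} (hle : α ≤ β) :
    nu m c α ≤ nu m c β := by
  unfold nu
  have h1 := h.node (cn α) (c (cn β)) (h.sub _ _ (cn_le.2 hle) (h.mem _)) 0 (h.K0 _)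
  rw [hF.zero, hF.zero] at h1
  rw [← h1]
  exact IsBr.mono (h.mm.monotone (lev_mono (cn_le.2 hle)))

lemma lev_nu (m : ℕ → ℕ) (c : Tree → Br) (α : Tree) : lev (nu m c α) = m (lev (cn α)) := by
  unfold nu
  rw [IsBr.lev_eq]

lemma nu_le (h : Sys A z s δ K m J c H) (hF : Fam A z s) (α β : Tree) :
    nu m c α ≤ nu m c β ↔ α ≤ β := by
  refine ⟨fun hle => ?_, nu_mono h hF⟩
  have h1 := lev_mono hle
  rw [lev_nu, lev_nu, h.mm.le_iff_le, lev_cn, lev_cn] at h1
  obtain ⟨γ, hγ1, hγ2⟩ := exists_pred β (k := lev α) (by omega)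
  have h2 : nu m c γ ≤ nu m c β := nu_mono h hF hγ1
  have h3 : nu m c α = nu m c γ := by
    have hl : lev (nu m c α) = lev (nu m c γ) := by rw [lev_nu, lev_nu, lev_cn, lev_cn, hγ2]
    rcases Forest.comp _ _ _ hle h2 with h' | h'
    · exact eq_of_lev h' hl.symm.le
    · exact (eq_of_lev h' hl.le).symm
  have h4 : α = γ := by
    by_contra hne
    have h5 := h.ne (α := cn α) (α' := cn γ) (by rw [lev_cn, lev_cn, hγ2]) (h.K0 _) (h.K0 _)
      (zero_inj hF _) (fun h' => hne (cn_inj h'.1)) le_rfl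
    rw [hF.zero, hF.zero] at h5
    apply h5
    have h6 := h3
    unfold nu at h6
    rwa [show lev (cn α) = lev (cn γ) by rw [lev_cn, lev_cn, hγ2]] at h6
  rw [h4]
  exact hγ1

/-- evaluation of the tails at the image nodes -/
lemma sg_nu_zero (h : Sys A z s δ K m J c H) (hF : Fam A z s) {γ i : Tree} {k p : ℕ}
    (hk : k < K (lev γ)) (hp : lev γ ≤ p) (hne : γ = cn i → k = 0 → lev γ < p) :
    sg (br (s k (c γ))) (m p) (ev (nu m c i)) = 0 := by
  unfold nu
  rcases lt_or_ge (lev (cn i)) p with hc | hc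
  · exact sg_ev_lt (h.mm hc)
  · apply sg_ev_br_ne
    have h5 := h.ne (α := γ) (α' := cn i) (hp.trans hc) hk (h.K0 _) (zero_inj hF _) (fun h' => by
      have h6 := hne h'.1 h'.2
      rw [h'.1] at h6
      omega) le_rfl
    rwa [hF.zero] at h5

lemma sg_pu (h : Sys A z s δ K m J c H) (hF : Fam A z s) {γ : Tree} {k p : ℕ}
    (hk : k < K (lev γ)) (hp : lev γ ≤ p) (hne : k = 0 → lev γ < p) (x : Pre Tree) :
    sg (br (s k (c γ))) (m p) (pu (nu m c) x) = 0 := by
  rw [expand x, map_sum, map_sum]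
  apply Finset.sum_eq_zero
  intro i _
  rw [map_smul, map_smul, pu_ev, sg_nu_zero h hF hk hp (fun _ => hne), smul_zero]

lemma sg_pu_self (h : Sys A z s δ K m J c H) (hF : Fam A z s) (α : Tree) (x : Pre Tree) :
    sg (br (s 0 (c (cn α)))) (m (lev (cn α))) (pu (nu m c) x) = x.val α := by
  classical
  nth_rewrite 1 [expand x]
  rw [map_sum, map_sum]
  have h1 : ∀ i ∈ (show Tree →₀ ℝ from x).support, sg (br (s 0 (c (cn α)))) (m (lev (cn α)))
      (pu (nu m c) (x.val i • ev i)) = if i = α then x.val i else 0 := by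
    intro i _
    rw [map_smul, map_smul, pu_ev, smul_eq_mul]
    by_cases hi : i = α
    · subst hi
      rw [if_pos rfl]
      unfold nu
      rw [sg_ev_br le_rfl (by rw [hF.zero]), mul_one]
    · rw [if_neg hi, sg_nu_zero h hF (h.K0 _) le_rfl (fun h' _ => absurd (cn_inj h').symm hi), mul_zero]
  rw [Finset.sum_congr rfl h1, Finset.sum_ite_eq']
  split_ifs with h2
  · rfl
  · exact (Finsupp.notMem_support_iff.1 h2).symm

/-- the increments over the single nodes -/
noncomputable def ww (z : Br → D Tree) (c : Tree → Br) (α : Tree) : D Tree :=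
  z (c (cn α)) - z (c (par (cn α)))

lemma pu_nu_val (h : Sys A z s δ K m J c H) (x : Pre Tree) {n : ℕ} {i : Tree}
    (h1 : m n < lev i) (h2 : lev i < m (n + 1)) : (pu (nu m c) x).val i = 0 := by
  apply pu_val_not
  rintro ⟨j, rfl⟩
  rw [lev_nu] at h1 h2
  have h3 := h.mm.lt_iff_lt.1 h1
  have h4 := h.mm.lt_iff_lt.1 h2
  omega

lemma res_pu (h : Sys A z s δ K m J c H) (x : Pre Tree) (n : ℕ) :
    res (lv Tree (m n + 1)) (pu (nu m c) x) = res (lv Tree (m (n + 1))) (pu (nu m c) x) := by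
  apply ext_val
  intro i
  rw [val_res, val_res]
  have hm := h.mm (Nat.lt_succ_self n)
  by_cases h1 : m n + 1 ≤ lev i
  · rw [if_pos (show i ∈ lv Tree (m n + 1) from h1)]
    by_cases h2 : m (n + 1) ≤ lev i
    · rw [if_pos (show i ∈ lv Tree (m (n + 1)) from h2)]
    · rw [if_neg (show i ∉ lv Tree (m (n + 1)) from h2)]
      exact pu_nu_val h x h1 (not_le.1 h2)
  · rw [if_neg (show i ∉ lv Tree (m n + 1) from h1),
      if_neg (show i ∉ lv Tree (m (n + 1)) from fun h2 => h1 (by
        have : m (n + 1) ≤ lev i := h2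
        have : m n < m (n + 1) := hm
        omega))]

/-- the increments are almost biorthogonal to the image nodes -/
lemma ww_pu (h : Sys A z s δ K m J c H) (hF : Fam A z s) (hz : ∀ d ∈ A, Lm (br d) (z d) = 1)
    (hδ : Antitone δ) (α : Tree) (x : Pre Tree) :
    |ww z c α (pu (nu m c) x) - x.val α| ≤ 3 * δ (lev α) * ‖x‖ := by
  have hx := norm_pu_le (nu_le h hF) x
  set y := pu (nu m c) x with hy
  set γ := cn α with hγ
  set a := par γ with ha
  have hla : lev a = lev α := by rw [ha, hγ, lev_par_cn]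
  have hlγ : lev γ = lev α + 1 := lev_cn α
  have hδ0 : 0 ≤ δ (lev α) := by
    have := h.low α (c α) (h.mem α)
    exact (norm_nonneg _).trans this
  -- the low part
  have t1 : |cut (z (c γ) - z (c a)) (lo Tree (m (lev α) + 1)) y| ≤ δ (lev α) * ‖x‖ := by
    have e1 := h.low a (c γ) (h.sub _ _ (par_le γ) (h.mem γ))
    rw [hla] at e1
    have e2 := (cut (z (c γ) - z (c a)) (lo Tree (m (lev α) + 1))).le_opNorm y
    rw [Real.norm_eq_abs] at e2
    exact e2.trans (mul_le_mul e1 hx (norm_nonneg _) hδ0)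
  -- the new functional
  have t2 : |cut (z (c γ)) (lv Tree (m (lev α + 1))) y - x.val α| ≤ δ (lev α) * ‖x‖ := by
    have e1 := h.est γ (c γ) (h.mem γ)
    rw [hlγ] at e1
    have e2 := (cut (z (c γ)) (lv Tree (m (lev α + 1))) -
      ∑ k ∈ Finset.range (K (lev α + 1)), lam z s k (c γ) • sg (br (s k (c γ))) (m (lev α + 1))).le_opNorm y
    have e3 : (∑ k ∈ Finset.range (K (lev α + 1)), lam z s k (c γ) •
        sg (br (s k (c γ))) (m (lev α + 1))) y = x.val α := by
      rw [_root_.sum_apply, Finset.sum_eq_single_of_mem 0 (Finset.mem_range.2 (h.K0 _))]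
      · rw [_root_.smul_apply, smul_eq_mul]
        have e4 := sg_pu_self h hF α x
        rw [← hγ, hlγ] at e4
        rw [hy, e4]
        have e5 : lam z s 0 (c γ) = 1 := by
          unfold lam
          rw [hF.zero]
          exact hz _ (h.subA _ (h.mem _))
        rw [e5, one_mul]
      · intro k hk hk0
        rw [_root_.smul_apply, smul_eq_mul, hy, sg_pu h hF (by
          rw [hlγ]; exact Finset.mem_range.1 hk) (by rw [hlγ]) (fun h' => absurd h' hk0), mul_zero]
    rw [_root_.sub_apply, e3, Real.norm_eq_abs] at e2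
    have e6 : δ (lev α + 1) ≤ δ (lev α) := hδ (Nat.le_succ _)
    exact e2.trans (mul_le_mul (e1.trans e6) hx (norm_nonneg _) hδ0)
  -- the old functional
  have t3 : |cut (z (c a)) (lv Tree (m (lev α + 1))) y| ≤ δ (lev α) * ‖x‖ := by
    have e1 := h.est a (c a) (h.mem a)
    rw [hla] at e1
    have hle : m (lev α) ≤ m (lev α + 1) := h.mm.monotone (Nat.le_succ _)
    have e2 : cut (cut (z (c a)) (lv Tree (m (lev α))) -
        ∑ k ∈ Finset.range (K (lev α)), lam z s k (c a) • sg (br (s k (c a))) (m (lev α)))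
        (lv Tree (m (lev α + 1))) = cut (z (c a)) (lv Tree (m (lev α + 1))) -
        ∑ k ∈ Finset.range (K (lev α)), lam z s k (c a) • sg (br (s k (c a))) (m (lev α + 1)) := by
      rw [cut_sub, cut_cut _ (show lv Tree (m (lev α + 1)) ⊆ lv Tree (m (lev α)) from
        fun i (hi : m (lev α + 1) ≤ lev i) => (hle.trans hi : m (lev α) ≤ lev i)), cut_sum]
      congr 1
      exact Finset.sum_congr rfl fun k _ => by rw [cut_smul, cut_sg hle]
    have e3 := (norm_cut_le (cut (z (c a)) (lv Tree (m (lev α))) -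
        ∑ k ∈ Finset.range (K (lev α)), lam z s k (c a) • sg (br (s k (c a))) (m (lev α)))
        (lv Tree (m (lev α + 1)))).trans e1
    rw [e2] at e3
    have e4 := (cut (z (c a)) (lv Tree (m (lev α + 1))) -
        ∑ k ∈ Finset.range (K (lev α)), lam z s k (c a) • sg (br (s k (c a))) (m (lev α + 1))).le_opNorm y
    have e5 : (∑ k ∈ Finset.range (K (lev α)), lam z s k (c a) •
        sg (br (s k (c a))) (m (lev α + 1))) y = 0 := by
      rw [_root_.sum_apply]
      apply Finset.sum_eq_zero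
      intro k hk
      rw [_root_.smul_apply, smul_eq_mul, hy, sg_pu h hF (by
        rw [hla]; exact Finset.mem_range.1 hk) (by rw [hla]; exact Nat.le_succ _)
        (fun _ => by rw [hla]; exact Nat.lt_succ_self _), mul_zero]
    rw [_root_.sub_apply, e5, sub_zero, Real.norm_eq_abs] at e4
    exact e4.trans (mul_le_mul e3 hx (norm_nonneg _) hδ0)
  have e0 : ww z c α y = cut (z (c γ) - z (c a)) (lo Tree (m (lev α) + 1)) y +
      (cut (z (c γ)) (lv Tree (m (lev α + 1))) y - cut (z (c a)) (lv Tree (m (lev α + 1))) y) := by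
    have e1 := congrArg (fun f : D Tree => f y) (cut_lo_add (z (c γ) - z (c a)) (m (lev α) + 1))
    simp only [_root_.add_apply] at e1
    have e2 : cut (z (c γ) - z (c a)) (lv Tree (m (lev α) + 1)) y =
        cut (z (c γ)) (lv Tree (m (lev α + 1))) y - cut (z (c a)) (lv Tree (m (lev α + 1))) y := by
      rw [cut_apply, cut_apply, cut_apply, hy, res_pu h x (lev α), ← hy]
      rfl
    rw [← e2, e1]
    rfl
  rw [e0, abs_le]
  rw [abs_le] at t1 t2 t3
  constructor <;> linarith

end lower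

end Pool.Agent.U541.JT
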