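import Pool.Agent.U541.JT.Low

/-!
# The embedding operator
-/

set_option autoImplicit false
set_option linter.unusedSectionVars false

open Set Filter Topology

namespace Pool.Agent.U541.JT

open Pool.Agent.R277.JT

section op

variable {A : Set Br} {z : Br → D Tree} {s : ℕ → Br → Br} {δ : ℕ → ℝ} {K m : ℕ → ℕ}
    {J : Tree → Set Br} {c : Tree → Br} {H : ℕ → Finset Br}

/-- telescoping sums over segments -/
lemma telescope (z : Br → D Tree) (c : Tree → Br) : ∀ (n : ℕ) (a e : Tree) (Q : Finset Tree),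
    lev e = n → a ≤ e → (∀ b, b ∈ Q ↔ a ≤ b ∧ b ≤ e) →
    ∑ α ∈ Q, ww z c α = z (c (cn e)) - z (c (par (cn a))) := by
  classical
  intro n
  induction n with
  | zero =>
    intro a e Q hn hae hQ
    have h1 : a = e := eq_of_lev hae (by omega)
    have h2 : Q = {e} := by
      ext b
      rw [hQ, Finset.mem_singleton, h1]
      exact ⟨fun h => le_antisymm h.2 h.1, fun h => by rw [h]; exact ⟨le_rfl, le_rfl⟩⟩
    rw [h2, Finset.sum_singleton, h1]
    rfl
  | succ n ih =>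
    intro a e Q hn hae hQ
    by_cases hne : a = e
    · have h2 : Q = {e} := by
        ext b
        rw [hQ, Finset.mem_singleton, hne]
        exact ⟨fun h => le_antisymm h.2 h.1, fun h => by rw [h]; exact ⟨le_rfl, le_rfl⟩⟩
      rw [h2, Finset.sum_singleton, hne]
      rfl
    · have he : e ∈ Q := (hQ e).2 ⟨hae, le_rfl⟩
      have h3 := ih a (par e) (Q.erase e) (by rw [lev_par, hn]; rfl) (le_par hae hne) (by
        intro b
        rw [Finset.mem_erase, hQ]
        constructor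
        · rintro ⟨h1, h2, h3⟩
          exact ⟨h2, le_par h3 h1⟩
        · rintro ⟨h1, h2⟩
          refine ⟨?_, h1, h2.trans (par_le e)⟩
          rintro rfl
          have := lev_mono h2
          rw [lev_par] at this
          omega)
      rw [← Finset.add_sum_erase _ _ he, h3]
      unfold ww
      rw [par_cn (by omega)]
      abel

open Classical in
/-- the truncated coordinate vectors -/
noncomputable def vN (z : Br → D Tree) (c : Tree → Br) (N : ℕ) (x : Pre Tree) : Pre Tree :=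
  ∑ α ∈ lof N, (ww z c α x) • ev α

open Classical in
lemma ss_vN (z : Br → D Tree) (c : Tree → Br) (N : ℕ) (x : Pre Tree) (S : Finset Tree) :
    ss S (vN z c N x) = (∑ α ∈ S.filter (fun α => α ∈ lo Tree N), ww z c α) x := by
  classical
  unfold vN
  rw [ss_sum]
  simp_rw [ss_smul, ss_ev]
  rw [_root_.sum_apply]
  simp_rw [mul_ite, mul_one, mul_zero]
  rw [← Finset.sum_filter]
  apply Finset.sum_congr _ fun _ _ => rfl
  ext α
  rw [Finset.mem_filter, Finset.mem_filter, mem_lof]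
  exact ⟨fun h => ⟨h.2, h.1⟩, fun h => ⟨h.2, h.1⟩⟩

lemma norm_vN_le (h : Sys A z s δ K m J c H) (hF : Fam A z s) {M : ℝ} (hM : ∀ d ∈ A, ‖z d‖ ≤ M)
    {η : ℝ} (hη : ∀ F : Finset Tree, ∑ α ∈ F, δ (lev (par α)) ≤ η) (N : ℕ) (x : Pre Tree) :
    ‖vN z c N x‖ ≤ (3 * η + 5 * M) * ‖x‖ := by
  classical
  have hM0 : 0 ≤ M := (norm_nonneg _).trans (hM (c (show Tree from ([] : List Bool))) (h.subA _ (h.mem _)))
  have hη0 : 0 ≤ η := by simpa using hη ∅
  have hC0 : 0 ≤ 3 * η + 5 * M := by positivity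
  apply norm_le_of (by positivity)
  intro P hP
  -- the truncated segments
  let tr : Finset Tree → Finset Tree := fun S => S.filter (fun α => α ∈ lo Tree N)
  let P' := P.filter fun S => (tr S).Nonempty
  have hsum : ∑ S ∈ P, (ss S (vN z c N x)) ^ 2 = ∑ S ∈ P', (ss S (vN z c N x)) ^ 2 := by
    symm
    apply Finset.sum_subset (Finset.filter_subset _ _)
    intro S hS hS'
    have h1 : ¬ (tr S).Nonempty := fun h => hS' (Finset.mem_filter.2 ⟨hS, h⟩)
    rw [Finset.not_nonempty_iff_eq_empty] at h1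
    rw [ss_vN]
    change ((∑ α ∈ tr S, ww z c α) x) ^ 2 = 0
    rw [h1, Finset.sum_empty]
    simp
  have hseg : ∀ S ∈ P', IsSeg (tr S) := by
    intro S hS
    rw [Finset.mem_filter] at hS
    exact seg_inter (hP.1 S hS.1) (inferInstance : (lo Tree N).OrdConnected) hS.2
  have h1 : ∀ S : Finset Tree, ∃ a e : Tree, S ∈ P' → a ≤ e ∧ ∀ b, b ∈ tr S ↔ a ≤ b ∧ b ≤ e := by
    intro S
    by_cases hS : S ∈ P'
    · obtain ⟨a, e, h1, h2⟩ := hseg S hS
      exact ⟨a, e, fun _ => ⟨h1, h2⟩⟩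
    · exact ⟨(show Tree from []), (show Tree from []), fun h => absurd h hS⟩
  choose a e hae using h1
  have hSegs : Segs P' (fun S => cn (a S)) (fun S => cn (e S)) := by
    refine ⟨fun S hS => cn_le.2 (hae S hS).1, fun S _ => by rw [lev_cn]; omega, ?_⟩
    intro S hS T hT hST γ h1 h2 h3 h4
    obtain ⟨γ', rfl⟩ := exists_cn h1
    rw [cn_le] at h1 h2 h3 h4
    have h5 : γ' ∈ tr S := ((hae S hS).2 γ').2 ⟨h1, h2⟩
    have h6 : γ' ∈ tr T := ((hae T hT).2 γ').2 ⟨h3, h4⟩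
    have h7 := hP.2 (Finset.mem_coe.2 (Finset.mem_filter.1 hS).1)
      (Finset.mem_coe.2 (Finset.mem_filter.1 hT).1) hST
    exact (Finset.disjoint_left.1 h7) (Finset.mem_filter.1 h5).1 (Finset.mem_filter.1 h6).1
  have h2 := upper h hF hM hη P' (fun S => ss S (vN z c N x)) hSegs
  have h3 : ∀ S ∈ P', ss S (vN z c N x) = (z (c (cn (e S))) - z (c (par (cn (a S))))) x := by
    intro S hS
    rw [ss_vN, ← telescope z c (lev (e S)) (a S) (e S) (tr S) rfl (hae S hS).1 (hae S hS).2]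
  have h4 : ∑ S ∈ P', (ss S (vN z c N x)) ^ 2 =
      (∑ S ∈ P', (ss S (vN z c N x)) • (z (c (cn (e S))) - z (c (par (cn (a S)))))) x := by
    rw [_root_.sum_apply]
    apply Finset.sum_congr rfl
    intro S hS
    rw [_root_.smul_apply, smul_eq_mul, ← h3 S hS, pow_two]
  rw [hsum]
  set sq2 := ∑ S ∈ P', (ss S (vN z c N x)) ^ 2 with hsq
  have h5 : sq2 ≤ (3 * η + 5 * M) * √sq2 * ‖x‖ := by
    have h6 := (∑ S ∈ P', (ss S (vN z c N x)) • (z (c (cn (e S))) - z (c (par (cn (a S)))))).le_opNorm x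
    rw [← h4, Real.norm_eq_abs] at h6
    exact (le_abs_self _).trans (h6.trans (mul_le_mul_of_nonneg_right h2 (norm_nonneg _)))
  have hsq0 : 0 ≤ sq2 := Finset.sum_nonneg fun _ _ => sq_nonneg _
  have h6 : √sq2 ≤ (3 * η + 5 * M) * ‖x‖ := by
    rcases (Real.sqrt_nonneg sq2).eq_or_lt with h7 | h7
    · rw [← h7]; positivity
    · have h8 : √sq2 * √sq2 = sq2 := Real.mul_self_sqrt hsq0
      have h9 : √sq2 * √sq2 ≤ ((3 * η + 5 * M) * ‖x‖) * √sq2 := by
        rw [h8]; linarith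
      exact le_of_mul_le_mul_right h9 h7
  calc sq2 = √sq2 ^ 2 := (Real.sq_sqrt hsq0).symm
    _ ≤ _ := pow_le_pow_left₀ (Real.sqrt_nonneg _) h6 2

lemma abs_ev_le (f : D Tree) (α : Tree) : |f (ev α)| ≤ ‖f‖ := abs_apply_ev_le f α

lemma sum_delta_le {δ : ℕ → ℝ} {η : ℝ} (hη : ∀ F : Finset Tree, ∑ α ∈ F, δ (lev (par α)) ≤ η)
    (F : Finset Tree) : ∑ α ∈ F, δ (lev α) ≤ η := by
  classical
  have h1 := hη (F.image cn)
  rw [Finset.sum_image (fun a _ b _ h => cn_inj h)] at h1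
  simpa only [lev_par_cn] using h1

lemma summable_delta {δ : ℕ → ℝ} (hδ : ∀ n, 0 ≤ δ n) {η : ℝ}
    (hη : ∀ F : Finset Tree, ∑ α ∈ F, δ (lev (par α)) ≤ η) : Summable fun α : Tree => δ (lev α) :=
  summable_of_sum_le (fun _ => hδ _) (sum_delta_le hη)

/-- the coordinates of a fixed vector are summable -/
lemma summable_ww (h : Sys A z s δ K m J c H) (hδ : ∀ n, 0 ≤ δ n) {η : ℝ}
    (hη : ∀ F : Finset Tree, ∑ α ∈ F, δ (lev (par α)) ≤ η) (x : Pre Tree) :
    Summable fun α : Tree => |ww z c α x| := by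
  obtain ⟨N, hN⟩ := exists_lev x
  apply Summable.of_norm_bounded_eventually ((summable_delta hδ hη).mul_right ‖x‖)
  have hfin : {α : Tree | lev α < N}.Finite := Lev.fin N
  filter_upwards [hfin.compl_mem_cofinite] with α hα
  have hα' : N ≤ lev α := not_lt.1 hα
  rw [Real.norm_eq_abs, abs_abs]
  have h1 : x = res (lo Tree (m (lev α) + 1)) x := by
    symm
    apply res_of_supp
    intro i hi
    have h2 : m (lev α) + 1 ≤ lev i := not_lt.1 hi
    have h3 : lev α ≤ m (lev α) := h.mm.le_apply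
    exact hN i (by omega)
  have h2 : ww z c α x = cut (z (c (cn α)) - z (c (par (cn α)))) (lo Tree (m (lev α) + 1)) x := by
    rw [cut_apply, ← h1]
    rfl
  rw [h2]
  have h3 := h.low (par (cn α)) (c (cn α)) (h.sub _ _ (par_le _) (h.mem _))
  rw [lev_par_cn] at h3
  have h4 := (cut (z (c (cn α)) - z (c (par (cn α)))) (lo Tree (m (lev α) + 1))).le_opNorm x
  rw [Real.norm_eq_abs] at h4
  exact h4.trans (mul_le_mul_of_nonneg_right h3 (norm_nonneg _))

lemma summable_f_ww (h : Sys A z s δ K m J c H) (hδ : ∀ n, 0 ≤ δ n) {η : ℝ}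
    (hη : ∀ F : Finset Tree, ∑ α ∈ F, δ (lev (par α)) ≤ η) (f : D Tree) (x : Pre Tree) :
    Summable fun α : Tree => f (ev α) * ww z c α x := by
  apply Summable.of_norm_bounded ((summable_ww h hδ hη x).mul_left ‖f‖)
  intro α
  rw [Real.norm_eq_abs, abs_mul]
  exact mul_le_mul_of_nonneg_right (abs_ev_le f α) (abs_nonneg _)

lemma lof_tendsto : Tendsto lof atTop atTop := by
  apply Monotone.tendsto_atTop_finset
  · intro a b hab i hi
    rw [mem_lof] at hi ⊢
    omega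
  · intro i
    exact ⟨lev i + 1, by rw [mem_lof]; omega⟩

lemma abs_tsum_le (h : Sys A z s δ K m J c H) (hF : Fam A z s) (hδ : ∀ n, 0 ≤ δ n) {M : ℝ}
    (hM : ∀ d ∈ A, ‖z d‖ ≤ M) {η : ℝ}
    (hη : ∀ F : Finset Tree, ∑ α ∈ F, δ (lev (par α)) ≤ η) (f : D Tree) (x : Pre Tree) :
    |∑' α : Tree, f (ev α) * ww z c α x| ≤ (3 * η + 5 * M) * ‖f‖ * ‖x‖ := by
  have h1 := (summable_f_ww h hδ hη f x).hasSum.comp lof_tendsto
  refine le_of_tendsto h1.abs (Eventually.of_forall fun N => ?_)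
  have h2 : (Function.comp (fun F : Finset Tree => ∑ α ∈ F, f (ev α) * ww z c α x) lof) N =
      f (vN z c N x) := by
    unfold vN
    rw [map_sum, Function.comp_apply]
    exact Finset.sum_congr rfl fun α _ => by rw [map_smul, smul_eq_mul, mul_comm]
  rw [h2]
  have h3 := f.le_opNorm (vN z c N x)
  rw [Real.norm_eq_abs] at h3
  have h4 := norm_vN_le h hF hM hη N x
  calc |f (vN z c N x)| ≤ ‖f‖ * ‖vN z c N x‖ := h3
    _ ≤ ‖f‖ * ((3 * η + 5 * M) * ‖x‖) := mul_le_mul_of_nonneg_left h4 (norm_nonneg _)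
    _ = _ := by ring

/-- the embedding -/
noncomputable def TT (h : Sys A z s δ K m J c H) (hF : Fam A z s) (hδ : ∀ n, 0 ≤ δ n) {M : ℝ}
    (hM : ∀ d ∈ A, ‖z d‖ ≤ M) {η : ℝ}
    (hη : ∀ F : Finset Tree, ∑ α ∈ F, δ (lev (par α)) ≤ η) : D Tree →L[ℝ] D Tree :=
  LinearMap.mkContinuous₂ (LinearMap.mk₂ ℝ (fun (f : D Tree) (x : Pre Tree) =>
      ∑' α : Tree, f (ev α) * ww z c α x)
    (fun f g x => by
      rw [← (summable_f_ww h hδ hη f x).tsum_add (summable_f_ww h hδ hη g x)]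
      exact tsum_congr fun α => by rw [_root_.add_apply, add_mul])
    (fun a f x => by
      rw [smul_eq_mul, ← tsum_mul_left]
      exact tsum_congr fun α => by rw [_root_.smul_apply, smul_eq_mul, mul_assoc])
    (fun f x y => by
      rw [← (summable_f_ww h hδ hη f x).tsum_add (summable_f_ww h hδ hη f y)]
      exact tsum_congr fun α => by rw [map_add, mul_add])
    (fun a f x => by
      rw [smul_eq_mul, ← tsum_mul_left]
      exact tsum_congr fun α => by rw [map_smul, smul_eq_mul]; ring)) (3 * η + 5 * M)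
    (fun f x => by
      rw [Real.norm_eq_abs]
      exact abs_tsum_le h hF hδ hM hη f x)

lemma TT_apply (h : Sys A z s δ K m J c H) (hF : Fam A z s) (hδ : ∀ n, 0 ≤ δ n) {M : ℝ}
    (hM : ∀ d ∈ A, ‖z d‖ ≤ M) {η : ℝ}
    (hη : ∀ F : Finset Tree, ∑ α ∈ F, δ (lev (par α)) ≤ η) (f : D Tree) (x : Pre Tree) :
    TT h hF hδ hM hη f x = ∑' α : Tree, f (ev α) * ww z c α x := rfl

lemma TT_cd (h : Sys A z s δ K m J c H) (hF : Fam A z s) (hδ : ∀ n, 0 ≤ δ n) {M : ℝ}
    (hM : ∀ d ∈ A, ‖z d‖ ≤ M) {η : ℝ}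
    (hη : ∀ F : Finset Tree, ∑ α ∈ F, δ (lev (par α)) ≤ η) (α : Tree) :
    TT h hF hδ hM hη (cd α) = ww z c α := by
  classical
  ext x
  rw [TT_apply, tsum_eq_single α]
  · rw [cd_apply, val_ev_self, one_mul]
  · intro β hβ
    rw [cd_apply, val_ev_ne hβ, zero_mul]

lemma TT_lower (h : Sys A z s δ K m J c H) (hF : Fam A z s) (hz : ∀ d ∈ A, Lm (br d) (z d) = 1)
    (hδa : Antitone δ) (hδ : ∀ n, 0 ≤ δ n) {M : ℝ}
    (hM : ∀ d ∈ A, ‖z d‖ ≤ M) {η : ℝ}
    (hη : ∀ F : Finset Tree, ∑ α ∈ F, δ (lev (par α)) ≤ η) (hη6 : 3 * η ≤ 1 / 2) (f : D Tree) :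
    1 / 2 * ‖f‖ ≤ ‖TT h hF hδ hM hη f‖ := by
  classical
  set T := TT h hF hδ hM hη with hT
  have hη0 : 0 ≤ η := by simpa using hη ∅
  have key : ∀ x : Pre Tree, |f x| ≤ (‖T f‖ + 1 / 2 * ‖f‖) * ‖x‖ := by
    intro x
    have hfx : HasSum (fun α : Tree => f (ev α) * x.val α) (f x) := by
      have h1 : f x = ∑ i ∈ (show Tree →₀ ℝ from x).support, f (ev i) * x.val i := by
        nth_rewrite 1 [expand x]
        rw [map_sum]
        exact Finset.sum_congr rfl fun i _ => by rw [map_smul, smul_eq_mul, mul_comm]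
      rw [h1]
      apply hasSum_sum_of_ne_finset_zero
      intro i hi
      have h2 : x.val i = 0 := Finsupp.notMem_support_iff.1 hi
      rw [h2, mul_zero]
    have hTf := (summable_f_ww h hδ hη f (pu (nu m c) x)).hasSum
    have h1 : HasSum (fun α : Tree => f (ev α) * ww z c α (pu (nu m c) x) - f (ev α) * x.val α)
        (T f (pu (nu m c) x) - f x) := hTf.sub hfx
    have hsd := summable_delta hδ hη
    have h2 : |T f (pu (nu m c) x) - f x| ≤ 1 / 2 * ‖f‖ * ‖x‖ := by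
      rw [← h1.tsum_eq]
      have hb : ∀ α : Tree, ‖f (ev α) * ww z c α (pu (nu m c) x) - f (ev α) * x.val α‖ ≤
          (3 * ‖f‖ * ‖x‖) * δ (lev α) := by
        intro α
        rw [← mul_sub, norm_mul, Real.norm_eq_abs, Real.norm_eq_abs]
        have h3 := ww_pu h hF hz hδa α x
        have h4 := abs_ev_le f α
        calc |f (ev α)| * |ww z c α (pu (nu m c) x) - x.val α| ≤ ‖f‖ * (3 * δ (lev α) * ‖x‖) :=
              mul_le_mul h4 h3 (abs_nonneg _) (norm_nonneg _)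
          _ = _ := by ring
      have h5 := tsum_of_norm_bounded ((hsd.mul_left (3 * ‖f‖ * ‖x‖)).hasSum) hb
      rw [Real.norm_eq_abs] at h5
      refine h5.trans ?_
      rw [tsum_mul_left]
      have h6 : ∑' α : Tree, δ (lev α) ≤ η :=
        hsd.tsum_le_of_sum_le (sum_delta_le hη)
      have h7 : 0 ≤ 3 * ‖f‖ * ‖x‖ := by positivity
      calc 3 * ‖f‖ * ‖x‖ * ∑' α : Tree, δ (lev α) ≤ 3 * ‖f‖ * ‖x‖ * η :=
            mul_le_mul_of_nonneg_left h6 h7
        _ = (3 * η) * (‖f‖ * ‖x‖) := by ring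
        _ ≤ 1 / 2 * (‖f‖ * ‖x‖) := mul_le_mul_of_nonneg_right hη6 (by positivity)
        _ = _ := by ring
    have h3 : |T f (pu (nu m c) x)| ≤ ‖T f‖ * ‖x‖ := by
      have h4 := (T f).le_opNorm (pu (nu m c) x)
      rw [Real.norm_eq_abs] at h4
      exact h4.trans (mul_le_mul_of_nonneg_left (norm_pu_le (nu_le h hF) x) (norm_nonneg _))
    have h4 : |f x| ≤ |T f (pu (nu m c) x)| + |T f (pu (nu m c) x) - f x| := by
      have := abs_sub_abs_le_abs_sub (f x) (T f (pu (nu m c) x))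
      rw [abs_sub_comm] at this
      linarith
    linarith
  have h1 : ‖f‖ ≤ ‖T f‖ + 1 / 2 * ‖f‖ :=
    f.opNorm_le_bound (by positivity) fun x => by rw [Real.norm_eq_abs]; exact key x
  linarith

end op

end Pool.Agent.U541.JT
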