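import Pool.Agent.U541.JT.Init

/-!
# One stage of the construction
-/

set_option autoImplicit false
set_option linter.unusedSectionVars false

open Set Filter Topology

namespace Pool.Agent.U541.JT

open Pool.Agent.R277.JT

/-- branches -/
abbrev Br : Type := ℕ → Bool

/-- An uncountable family of functionals with enumerated supports. -/
structure Fam (A : Set Br) (z : Br → D Tree) (s : ℕ → Br → Br) : Prop where
  unc : ¬ A.Countable
  inj : ∀ c, Function.Injective fun k => s k c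
  zero : ∀ c, s 0 c = c
  app : ∀ c ∈ A, ∀ δ : ℝ, 0 < δ → ∃ K0, ∀ K, K0 ≤ K → ∃ m0, ∀ m, m0 ≤ m →
      ‖cut (z c) (lv Tree m) - ∑ k ∈ Finset.range K, Lm (br (s k c)) (z c) • sg (br (s k c)) m‖ ≤ δ

/-- the branch coefficients -/
noncomputable def lam (z : Br → D Tree) (s : ℕ → Br → Br) (k : ℕ) (c : Br) : ℝ :=
  Lm (br (s k c)) (z c)

/-- neighbourhoods -/
def Nb (z : Br → D Tree) (s : ℕ → Br → Br) (c : Br) (K m : ℕ) (δ : ℝ) : Set Br :=
  {d | (∀ k < K, br (s k d) m = br (s k c) m ∧ |lam z s k d - lam z s k c| ≤ δ) ∧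
    ‖cut (z d - z c) (lo Tree (m + 1))‖ ≤ δ}

lemma br_congr {c d : Br} {m : ℕ} (h : ∀ i < m, c i = d i) : br c m = br d m := by
  change (List.range m).map c = (List.range m).map d
  rw [List.map_inj_left]
  intro i hi
  exact h i (List.mem_range.1 hi)

lemma cond_nb (z : Br → D Tree) (s : ℕ → Br → Br) (J : Set Br) :
    {c ∈ J | ∃ (K m : ℕ) (δ : ℝ), 0 < δ ∧ (J ∩ Nb z s c K m δ).Countable}.Countable := by
  let Θ : Br → (ℕ → Br) × (ℕ → ℝ) × (Tree → ℝ) :=
    fun c => (fun k => s k c, fun k => lam z s k c, fun i => z c (ev i))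
  refine (cond_pts Θ J).mono ?_
  rintro c ⟨hc, K, m, δ, hδ, hcount⟩
  refine ⟨hc, {x | (∀ k ∈ Finset.range K, (∀ i ∈ Finset.range m, x.1 k i = s k c i) ∧
    |x.2.1 k - lam z s k c| ≤ δ) ∧ ∑ i ∈ lof (m + 1), |x.2.2 i - z c (ev i)| ≤ δ}, ?_, ?_⟩
  · have h1 : ∀ k, ∀ i, ∀ᶠ x in 𝓝 (Θ c), x.1 k i = s k c i := by
      intro k i
      have hcont : Continuous fun x : (ℕ → Br) × (ℕ → ℝ) × (Tree → ℝ) => x.1 k i := by fun_prop
      exact (hcont.tendsto (Θ c)).eventually_mem ((isOpen_discrete {s k c i}).mem_nhds rfl)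
    have h2 : ∀ k, ∀ᶠ x in 𝓝 (Θ c), |x.2.1 k - lam z s k c| ≤ δ := by
      intro k
      have hcont : Continuous fun x : (ℕ → Br) × (ℕ → ℝ) × (Tree → ℝ) =>
        |x.2.1 k - lam z s k c| := by fun_prop
      have h3 := hcont.tendsto (Θ c)
      have h4 : |(Θ c).2.1 k - lam z s k c| = 0 := by simp [Θ]
      rw [h4] at h3
      exact h3.eventually_le_const hδ
    have h3 : ∀ᶠ x in 𝓝 (Θ c), ∑ i ∈ lof (m + 1), |x.2.2 i - z c (ev i)| ≤ δ := by
      have hcont : Continuous fun x : (ℕ → Br) × (ℕ → ℝ) × (Tree → ℝ) =>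
        ∑ i ∈ lof (m + 1), |x.2.2 i - z c (ev i)| := by fun_prop
      have h3 := hcont.tendsto (Θ c)
      have h4 : ∑ i ∈ lof (m + 1), |(Θ c).2.2 i - z c (ev i)| = 0 := by simp [Θ]
      rw [h4] at h3
      exact h3.eventually_le_const hδ
    apply Filter.Eventually.and _ h3
    rw [Filter.eventually_all_finset]
    intro k _
    exact ((Filter.eventually_all_finset _).2 fun i _ => h1 k i).and (h2 k)
  · refine hcount.mono ?_
    rintro d ⟨hdJ, hd1, hd2⟩
    refine ⟨hdJ, fun k hk => ?_, ?_⟩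
    · obtain ⟨h1, h2⟩ := hd1 k (Finset.mem_range.2 hk)
      exact ⟨br_congr fun i hi => h1 i (Finset.mem_range.2 hi), h2⟩
    · exact (norm_cut_lo_le _ _).trans hd2

lemma self_mem_nb (z : Br → D Tree) (s : ℕ → Br → Br) (c : Br) (K m : ℕ) {δ : ℝ} (hδ : 0 ≤ δ) :
    c ∈ Nb z s c K m δ := by
  refine ⟨fun k _ => ⟨rfl, by rw [sub_self, abs_zero]; exact hδ⟩, ?_⟩
  have : cut (z c - z c) (lo Tree (m + 1)) = 0 := by
    rw [sub_self]
    rfl
  rw [this, norm_zero]
  exact hδ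

/-- The output of one stage. -/
structure StOut (z : Br → D Tree) (s : ℕ → Br → Br) (B : Finset Tree) (J : Tree → Set Br)
    (H : Finset Br) (K0 m0 : ℕ) (δ : ℝ) (K m : ℕ) (J' : Tree → Set Br) (c : Tree → Br)
    (H' : Finset Br) : Prop where
  hK : K0 ≤ K
  hm : m0 < m
  hH : H ⊆ H'
  sep : Sep H' m
  unc : ∀ β ∈ B, ¬ (J' β).Countable
  sub : ∀ β ∈ B, J' β ⊆ J β
  mem : ∀ β ∈ B, c β ∈ J' β
  dich : ∀ β ∈ B, ∀ k < K, InjOn (s k) (J' β) ∨ ∀ d ∈ J' β, s k d = s k (c β)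
  est : ∀ β ∈ B, ∀ d ∈ J' β, ‖cut (z d) (lv Tree m) -
    ∑ k ∈ Finset.range K, lam z s k (c β) • sg (br (s k d)) m‖ ≤ δ
  low : ∀ β ∈ B, ∀ d ∈ J' β, ‖cut (z d - z (c β)) (lo Tree (m + 1))‖ ≤ δ
  node : ∀ β ∈ B, ∀ d ∈ J' β, ∀ k < K, br (s k d) m = br (s k (c β)) m
  inH : ∀ β ∈ B, ∀ k < K, s k (c β) ∈ H'
  notH : ∀ β ∈ B, ∀ k < K, InjOn (s k) (J' β) → s k (c β) ∉ H
  dist : ∀ β ∈ B, ∀ β' ∈ B, ∀ k < K, ∀ k' < K, InjOn (s k) (J' β) → s k (c β) = s k' (c β') →
    β = β' ∧ k = k'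

lemma norm_sg_le' (c : Br) (m : ℕ) : ‖sg (br c) m‖ ≤ 1 := by
  apply ContinuousLinearMap.opNorm_le_bound _ zero_le_one
  intro x
  rw [one_mul]
  exact abs_sg_le _ x

theorem stage {A : Set Br} {z : Br → D Tree} {s : ℕ → Br → Br} (hF : Fam A z s)
    (B : Finset Tree) (J : Tree → Set Br) (hJ : ∀ β ∈ B, ¬ (J β).Countable)
    (hJA : ∀ β ∈ B, J β ⊆ A) (H : Finset Br) (K0 m0 : ℕ) {δ : ℝ} (hδ : 0 < δ) :
    ∃ (K m : ℕ) (J' : Tree → Set Br) (c : Tree → Br) (H' : Finset Br),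
      StOut z s B J H K0 m0 δ K m J' c H' := by
  classical
  -- number of coordinates
  have h1 : ∀ β ∈ B, ∃ n, ¬ {c ∈ J β | ∀ K, n ≤ K → ∃ m0, ∀ m, m0 ≤ m →
      ‖cut (z c) (lv Tree m) - ∑ k ∈ Finset.range K, lam z s k c • sg (br (s k c)) m‖ ≤ δ / 2}.Countable := by
    intro β hβ
    exact pigeon_ex (hJ β hβ) (fun c hc => hF.app c (hJA β hβ hc) _ (half_pos hδ))
      (fun c m n hmn h K hK => h K (hmn.trans hK))
  choose! K1 hK1 using h1
  set K := max K0 (B.sup K1) with hK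
  set J1 : Tree → Set Br := fun β => {c ∈ J β | ∃ m0, ∀ m, m0 ≤ m →
      ‖cut (z c) (lv Tree m) - ∑ k ∈ Finset.range K, lam z s k c • sg (br (s k c)) m‖ ≤ δ / 2} with hJ1
  have hJ1u : ∀ β ∈ B, ¬ (J1 β).Countable := by
    intro β hβ h
    refine hK1 β hβ (h.mono ?_)
    rintro c ⟨hc1, hc2⟩
    exact ⟨hc1, hc2 K ((Finset.le_sup hβ).trans (le_max_right _ _))⟩
  have h2 : ∀ β ∈ B, ∃ n, ¬ {c ∈ J1 β | ∀ m, n ≤ m →
      ‖cut (z c) (lv Tree m) - ∑ k ∈ Finset.range K, lam z s k c • sg (br (s k c)) m‖ ≤ δ / 2}.Countable := by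
    intro β hβ
    exact pigeon_ex (hJ1u β hβ) (fun c hc => hc.2)
      (fun c m n hmn h K hK => h K (hmn.trans hK))
  choose! M1 hM1 using h2
  set J2 : Tree → Set Br := fun β => {c ∈ J1 β | ∀ m, M1 β ≤ m →
      ‖cut (z c) (lv Tree m) - ∑ k ∈ Finset.range K, lam z s k c • sg (br (s k c)) m‖ ≤ δ / 2} with hJ2
  have h3 : ∀ β ∈ B, ∃ J3 ⊆ J2 β, ¬ J3.Countable ∧
      ∀ k < K, (InjOn (s k) J3 ∨ ∃ v, ∀ c ∈ J3, s k c = v) :=
    fun β hβ => const_or_inj_fin s K (hM1 β hβ)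
  choose! J3 hJ3a hJ3b hJ3c using h3
  set J4 : Tree → Set Br := fun β => J3 β \ {c ∈ J3 β | ∃ (K m : ℕ) (δ : ℝ), 0 < δ ∧
    (J3 β ∩ Nb z s c K m δ).Countable} with hJ4
  have hJ4u : ∀ β ∈ B, ¬ (J4 β).Countable := by
    intro β hβ h
    apply hJ3b β hβ
    refine (h.union (cond_nb z s (J3 β))).mono ?_
    intro c hc
    by_cases hc' : c ∈ {c ∈ J3 β | ∃ (K m : ℕ) (δ : ℝ), 0 < δ ∧ (J3 β ∩ Nb z s c K m δ).Countable}
    · exact Or.inr hc'
    · exact Or.inl ⟨hc, hc'⟩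
  -- injectivity is inherited upwards
  have hup : ∀ β ∈ B, ∀ k < K, ∀ J'' ⊆ J3 β, ¬ J''.Countable → InjOn (s k) J'' → InjOn (s k) (J3 β) := by
    intro β hβ k hk J'' hsub hu hinj
    rcases hJ3c β hβ k hk with h | ⟨v, h⟩
    · exact h
    · exfalso
      apply hu
      apply Set.Subsingleton.countable
      intro a ha b hb
      exact hinj ha hb ((h a (hsub ha)).trans (h b (hsub hb)).symm)
  have hne : ∀ β ∈ B, ∃ d, d ∈ J3 β := by
    intro β hβ
    by_contra hcon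
    push Not at hcon
    apply hJ3b β hβ
    rw [Set.eq_empty_of_forall_notMem hcon]
    exact countable_empty
  choose! d0 hd0 using hne
  set H1 : Finset Br := H ∪ B.biUnion fun β => (Finset.range K).image fun k => s k (d0 β) with hH1
  obtain ⟨c, hc1, hc2, hc3⟩ := choose_reps B J4 hJ4u s K (H1 : Set Br) (Finset.countable_toSet _)
  set H' : Finset Br := H ∪ B.biUnion fun β => (Finset.range K).image fun k => s k (c β) with hH'
  obtain ⟨m1, hm1⟩ := exists_sep H'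
  set m := max (m0 + 1) (max m1 (B.sup M1)) with hm
  set δ' := δ / (2 * (K + 1)) with hδ'
  have hδ'0 : 0 < δ' := by positivity
  set J' : Tree → Set Br := fun β => J3 β ∩ Nb z s (c β) K m δ' with hJ'
  have hc3m : ∀ β ∈ B, c β ∈ J3 β := fun β hβ => (hc1 β hβ).1
  have hJ'u : ∀ β ∈ B, ¬ (J' β).Countable := by
    intro β hβ h
    exact (hc1 β hβ).2 ⟨hc3m β hβ, K, m, δ', hδ'0, h⟩
  have hmem : ∀ β ∈ B, c β ∈ J' β := fun β hβ => ⟨hc3m β hβ, self_mem_nb z s _ _ _ hδ'0.le⟩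
  have hinj4 : ∀ β ∈ B, ∀ k < K, InjOn (s k) (J' β) → InjOn (s k) (J4 β) := by
    intro β hβ k hk hinj
    exact (hup β hβ k hk (J' β) inter_subset_left (hJ'u β hβ) hinj).mono sdiff_subset
  refine ⟨K, m, J', c, H', ?_, ?_, ?_, ?_, hJ'u, ?_, hmem, ?_, ?_, ?_, ?_, ?_, ?_, ?_⟩
  · exact le_max_left _ _
  · exact lt_of_lt_of_le (Nat.lt_succ_self m0) (le_max_left _ _)
  · exact Finset.subset_union_left
  · exact hm1.mono ((le_max_left _ _).trans (le_max_right _ _))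
  · intro β hβ d hd
    exact (hJ3a β hβ hd.1).1.1
  · intro β hβ k hk
    rcases hJ3c β hβ k hk with h | ⟨v, h⟩
    · exact Or.inl (h.mono inter_subset_left)
    · exact Or.inr fun d hd => (h d hd.1).trans (h _ (hc3m β hβ)).symm
  · intro β hβ d hd
    have e1 := (hJ3a β hβ hd.1).2 m ((Finset.le_sup hβ).trans ((le_max_right _ _).trans (le_max_right _ _)))
    have e2 : cut (z d) (lv Tree m) - ∑ k ∈ Finset.range K, lam z s k (c β) • sg (br (s k d)) m =
        (cut (z d) (lv Tree m) - ∑ k ∈ Finset.range K, lam z s k d • sg (br (s k d)) m) +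
        ∑ k ∈ Finset.range K, (lam z s k d - lam z s k (c β)) • sg (br (s k d)) m := by
      have e0 : ∑ k ∈ Finset.range K, (lam z s k d - lam z s k (c β)) • sg (br (s k d)) m =
          ∑ k ∈ Finset.range K, lam z s k d • sg (br (s k d)) m -
          ∑ k ∈ Finset.range K, lam z s k (c β) • sg (br (s k d)) m := by
        rw [← Finset.sum_sub_distrib]
        exact Finset.sum_congr rfl fun k _ => by
          ext x
          simp only [_root_.sub_apply, _root_.smul_apply, smul_eq_mul]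
          ring
      rw [e0]
      abel
    rw [e2]
    have e3 : ‖∑ k ∈ Finset.range K, (lam z s k d - lam z s k (c β)) • sg (br (s k d)) m‖ ≤ K * δ' := by
      refine (norm_sum_le _ _).trans ?_
      have : ∑ k ∈ Finset.range K, ‖(lam z s k d - lam z s k (c β)) • sg (br (s k d)) m‖ ≤
          ∑ k ∈ Finset.range K, δ' := by
        apply Finset.sum_le_sum
        intro k hk
        rw [norm_smul, Real.norm_eq_abs]
        have h5 := (hd.2.1 k (Finset.mem_range.1 hk)).2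
        have h6 := norm_sg_le' (s k d) m
        have h7 := norm_nonneg (sg (br (s k d)) m)
        have h8 := abs_nonneg (lam z s k d - lam z s k (c β))
        nlinarith
      rwa [Finset.sum_const, Finset.card_range, nsmul_eq_mul] at this
    have e4 : (K : ℝ) * δ' ≤ δ / 2 := by
      rw [hδ', mul_div_assoc', div_le_div_iff₀ (by positivity) (by positivity)]
      nlinarith
    have e5 := norm_add_le (cut (z d) (lv Tree m) - ∑ k ∈ Finset.range K, lam z s k d • sg (br (s k d)) m)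
        (∑ k ∈ Finset.range K, (lam z s k d - lam z s k (c β)) • sg (br (s k d)) m)
    linarith
  · intro β hβ d hd
    refine hd.2.2.trans ?_
    rw [hδ', div_le_iff₀ (by positivity)]
    have : (0:ℝ) ≤ K := Nat.cast_nonneg K
    nlinarith
  · intro β hβ d hd k hk
    exact (hd.2.1 k hk).1
  · intro β hβ k hk
    apply Finset.mem_union_right
    rw [Finset.mem_biUnion]
    exact ⟨β, hβ, Finset.mem_image_of_mem _ (Finset.mem_range.2 hk)⟩
  · intro β hβ k hk hinj hcon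
    exact hc2 β hβ k hk (hinj4 β hβ k hk hinj) (Finset.mem_coe.2 (Finset.mem_union_left _ hcon))
  · intro β hβ β' hβ' k hk k' hk' hinj heq
    have hinj4' := hinj4 β hβ k hk hinj
    by_cases hββ : β = β'
    · subst hββ
      exact ⟨rfl, hF.inj (c β) heq⟩
    · exfalso
      rcases hJ3c β' hβ' k' hk' with h | ⟨v, h⟩
      · exact hc3 β hβ β' hβ' hββ k hk k' hk' hinj4' (h.mono sdiff_subset) heq
      · apply hc2 β hβ k hk hinj4'
        rw [heq, h _ (hc3m β' hβ'), ← h _ (hd0 β' hβ')]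
        apply Finset.mem_coe.2
        apply Finset.mem_union_right
        rw [Finset.mem_biUnion]
        exact ⟨β', hβ', Finset.mem_image_of_mem _ (Finset.mem_range.2 hk')⟩

end Pool.Agent.U541.JT
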