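import Pool.Agent.U541.JT.Stage

/-!
# The full construction
-/

set_option autoImplicit false
set_option linter.unusedSectionVars false

open Set Filter Topology

namespace Pool.Agent.U541.JT

open Pool.Agent.R277.JT

/-- the parent of a node -/
def par (β : Tree) : Tree := (show Tree from (show List Bool from β).dropLast)

lemma lev_par (β : Tree) : lev (par β) = lev β - 1 := by
  rw [lev_tree, lev_tree]
  exact List.length_dropLast

lemma par_le (β : Tree) : par β ≤ β := tree_le.2 (List.dropLast_prefix _)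

lemma le_par {α β : Tree} (h : α ≤ β) (hne : α ≠ β) : α ≤ par β := by
  rw [tree_le] at h ⊢
  obtain ⟨t, ht⟩ := h
  have ht0 : t ≠ [] := by
    rintro rfl
    rw [List.append_nil] at ht
    exact hne ht
  change _ <+: (show List Bool from β).dropLast
  rw [← ht, List.dropLast_append_of_ne_nil ht0]
  exact ⟨_, rfl⟩

/-- one level of the tree -/
noncomputable def lvl (n : ℕ) : Finset Tree := (lof (n + 1)).filter (fun β => lev β = n)

lemma mem_lvl {n : ℕ} {β : Tree} : β ∈ lvl n ↔ lev β = n := by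
  unfold lvl
  rw [Finset.mem_filter, mem_lof]
  exact ⟨fun h => h.2, fun h => ⟨by omega, h⟩⟩

/-- The state of the recursion. -/
structure St : Type where
  K : ℕ
  m : ℕ
  J : Tree → Set Br
  c : Tree → Br
  H : Finset Br

/-- The whole system. -/
structure Sys (A : Set Br) (z : Br → D Tree) (s : ℕ → Br → Br) (δ : ℕ → ℝ) (K m : ℕ → ℕ)
    (J : Tree → Set Br) (c : Tree → Br) (H : ℕ → Finset Br) : Prop where
  K1 : ∀ n, 1 ≤ K n
  Km : Monotone K
  mm : StrictMono m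
  Hm : Monotone H
  sep : ∀ n, Sep (H n) (m n)
  unc : ∀ β, ¬ (J β).Countable
  sub : ∀ α β, α ≤ β → J β ⊆ J α
  subA : ∀ β, J β ⊆ A
  mem : ∀ β, c β ∈ J β
  dich : ∀ β, ∀ k < K (lev β), InjOn (s k) (J β) ∨ ∀ d ∈ J β, s k d = s k (c β)
  est : ∀ β, ∀ d ∈ J β, ‖cut (z d) (lv Tree (m (lev β))) -
    ∑ k ∈ Finset.range (K (lev β)), lam z s k (c β) • sg (br (s k d)) (m (lev β))‖ ≤ δ (lev β)
  low : ∀ β, ∀ d ∈ J β, ‖cut (z d - z (c β)) (lo Tree (m (lev β) + 1))‖ ≤ δ (lev β)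
  node : ∀ β, ∀ d ∈ J β, ∀ k < K (lev β), br (s k d) (m (lev β)) = br (s k (c β)) (m (lev β))
  inH : ∀ β, ∀ k < K (lev β), s k (c β) ∈ H (lev β)
  notH : ∀ β, ∀ j < lev β, ∀ k < K (lev β), InjOn (s k) (J β) → s k (c β) ∉ H j
  dist : ∀ β β', lev β = lev β' → ∀ k < K (lev β), ∀ k' < K (lev β), InjOn (s k) (J β) →
    s k (c β) = s k' (c β') → β = β' ∧ k = k'

theorem exists_sys {A : Set Br} {z : Br → D Tree} {s : ℕ → Br → Br} (hF : Fam A z s)
    {δ : ℕ → ℝ} (hδ : ∀ n, 0 < δ n) :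
    ∃ (K m : ℕ → ℕ) (J : Tree → Set Br) (c : Tree → Br) (H : ℕ → Finset Br),
      Sys A z s δ K m J c H := by
  classical
  let Inv : ℕ → St → Prop := fun n st => (∀ β ∈ lvl n, ¬ (st.J β).Countable) ∧
    (∀ β ∈ lvl n, st.J β ⊆ A) ∧ 1 ≤ st.K
  let Nxt : ℕ → St → St → Prop := fun n st st' => StOut z s (lvl (n + 1)) (fun β => st.J (par β))
    st.H st.K st.m (δ (n + 1)) st'.K st'.m st'.J st'.c st'.H
  have hpar : ∀ n, ∀ β ∈ lvl (n + 1), par β ∈ lvl n := by
    intro n β hβ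
    rw [mem_lvl] at hβ ⊢
    rw [lev_par, hβ]
    rfl
  have hstep : ∀ n (st : St), Inv n st → ∃ st', Nxt n st st' ∧ Inv (n + 1) st' := by
    intro n st hst
    obtain ⟨K, m, J', c, H', h⟩ := stage hF (lvl (n + 1)) (fun β => st.J (par β))
      (fun β hβ => hst.1 _ (hpar n β hβ)) (fun β hβ => hst.2.1 _ (hpar n β hβ)) st.H st.K st.m (hδ (n + 1))
    exact ⟨⟨K, m, J', c, H'⟩, h, h.unc, fun β hβ => (h.sub β hβ).trans (hst.2.1 _ (hpar n β hβ)),
      hst.2.2.trans h.hK⟩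
  obtain ⟨K0, m0, J0, c0, H0, h0⟩ := stage hF (lvl 0) (fun _ => A) (fun _ _ => hF.unc)
    (fun _ _ => Subset.rfl) ∅ 1 0 (hδ 0)
  let st0 : St := ⟨K0, m0, J0, c0, H0⟩
  have hst0 : Inv 0 st0 := ⟨h0.unc, h0.sub, h0.hK⟩
  choose nx hnx1 hnx2 using hstep
  obtain ⟨S, hS0, hSI, hS⟩ : ∃ S : ℕ → St, S 0 = st0 ∧ (∀ n, Inv n (S n)) ∧
      ∀ n, Nxt n (S n) (S (n + 1)) := by
    let S : ∀ n : ℕ, {st : St // Inv n st} := fun n =>
      Nat.rec (motive := fun n => {st : St // Inv n st}) ⟨st0, hst0⟩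
        (fun n st => ⟨nx n st.1 st.2, hnx2 n st.1 st.2⟩) n
    exact ⟨fun n => (S n).1, rfl, fun n => (S n).2, fun n => hnx1 n (S n).1 (S n).2⟩
  -- the stage which produced level `n`
  have hout : ∀ n, ∃ (J1 : Tree → Set Br) (H1 : Finset Br) (K1 m1 : ℕ),
      StOut z s (lvl n) J1 H1 K1 m1 (δ n) (S n).K (S n).m (S n).J (S n).c (S n).H := by
    intro n
    cases n with
    | zero => rw [hS0]; exact ⟨_, _, _, _, h0⟩
    | succ n => exact ⟨_, _, _, _, hS n⟩
  have hHm : Monotone fun n => (S n).H := monotone_nat_of_le_succ fun n => (hS n).hH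
  have hsub1 : ∀ β : Tree, 1 ≤ lev β → (S (lev β)).J β ⊆ (S (lev (par β))).J (par β) := by
    intro β hβ
    obtain ⟨n, hn⟩ : ∃ n, lev β = n + 1 := ⟨lev β - 1, by omega⟩
    have h1 : lev (par β) = n := by rw [lev_par, hn]; rfl
    rw [hn, h1]
    exact (hS n).sub β (mem_lvl.2 hn)
  refine ⟨fun n => (S n).K, fun n => (S n).m, fun β => (S (lev β)).J β,
    fun β => (S (lev β)).c β, fun n => (S n).H, ?_⟩
  refine ⟨fun n => (hSI n).2.2, monotone_nat_of_le_succ fun n => (hS n).hK,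
    strictMono_nat_of_lt_succ fun n => (hS n).hm, hHm, ?_, ?_, ?_, ?_, ?_, ?_, ?_, ?_, ?_, ?_, ?_, ?_⟩
  · intro n
    obtain ⟨_, _, _, _, h⟩ := hout n
    exact h.sep
  · intro β
    exact (hSI (lev β)).1 β (mem_lvl.2 rfl)
  · have key : ∀ n, ∀ β : Tree, lev β = n → ∀ α, α ≤ β → (S (lev β)).J β ⊆ (S (lev α)).J α := by
      intro n
      induction n with
      | zero =>
        intro β hβ α hα
        have : α = β := eq_of_lev hα (by omega)
        rw [this]
      | succ n ih =>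
        intro β hβ α hα
        by_cases hne : α = β
        · rw [hne]
        · refine (hsub1 β (by omega)).trans (ih (par β) (by rw [lev_par, hβ]; rfl) α (le_par hα hne))
    exact fun α β h => key _ β rfl α h
  · intro β
    exact (hSI (lev β)).2.1 β (mem_lvl.2 rfl)
  · intro β
    obtain ⟨_, _, _, _, h⟩ := hout (lev β)
    exact h.mem β (mem_lvl.2 rfl)
  · intro β
    obtain ⟨_, _, _, _, h⟩ := hout (lev β)
    exact h.dich β (mem_lvl.2 rfl)
  · intro β
    obtain ⟨_, _, _, _, h⟩ := hout (lev β)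
    exact h.est β (mem_lvl.2 rfl)
  · intro β
    obtain ⟨_, _, _, _, h⟩ := hout (lev β)
    exact h.low β (mem_lvl.2 rfl)
  · intro β
    obtain ⟨_, _, _, _, h⟩ := hout (lev β)
    exact h.node β (mem_lvl.2 rfl)
  · intro β
    obtain ⟨_, _, _, _, h⟩ := hout (lev β)
    exact h.inH β (mem_lvl.2 rfl)
  · intro β j hj k hk hinj hcon
    obtain ⟨n, hn⟩ : ∃ n, lev β = n + 1 := ⟨lev β - 1, by omega⟩
    simp only [hn] at hk hinj hcon
    have h1 := (hS n).notH β (mem_lvl.2 hn) k hk hinj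
    have h2 : (S j).H ⊆ (S n).H := hHm (by omega)
    exact h1 (h2 hcon)
  · intro β β' hl k hk k' hk' hinj heq
    obtain ⟨_, _, _, _, h⟩ := hout (lev β)
    simp only [← hl] at heq
    exact h.dist β (mem_lvl.2 rfl) β' (mem_lvl.2 hl.symm) k hk k' hk' hinj heq

section sys

variable {A : Set Br} {z : Br → D Tree} {s : ℕ → Br → Br} {δ : ℕ → ℝ} {K m : ℕ → ℕ}
    {J : Tree → Set Br} {c : Tree → Br} {H : ℕ → Finset Br}

/-- separation of the moving branches from all the others -/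
lemma Sys.ne (h : Sys A z s δ K m J c H) {α α' : Tree} (hl : lev α ≤ lev α') {k k' : ℕ}
    (hk : k < K (lev α)) (hk' : k' < K (lev α')) (hm : InjOn (s k') (J α'))
    (hne : ¬ (α = α' ∧ k = k')) {n : ℕ} (hn : m (lev α') ≤ n) :
    br (s k (c α)) n ≠ br (s k' (c α')) n := by
  have h1 : s k (c α) ∈ H (lev α') := h.Hm hl (h.inH α k hk)
  have h2 : s k' (c α') ∈ H (lev α') := h.inH α' k' hk'
  apply (h.sep (lev α')).mono hn _ h1 _ h2
  intro heq
  rcases hl.eq_or_lt with h3 | h3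
  · have := h.dist α' α h3.symm k' hk' k (by rw [← h3]; exact hk) hm heq.symm
    exact hne ⟨this.1.symm, this.2.symm⟩
  · exact h.notH α' (lev α) h3 k' hk' hm (heq ▸ h.inH α k hk)

end sys

end Pool.Agent.U541.JT
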