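import Pool.Agent.U541.JT.Sys

/-!
# The upper estimate
-/

set_option autoImplicit false
set_option linter.unusedSectionVars false

open Set Filter Topology

namespace Pool.Agent.U541.JT

open Pool.Agent.R277.JT

lemma norm_sum_sp_le {ι : Type*} (S : Finset ι) (σ : ι → ℕ → Tree) [∀ i, IsBr (σ i)] (k l : ι → ℕ)
    (hd : ∀ i ∈ S, ∀ j ∈ S, i ≠ j → ∀ n, k i ≤ n → k j ≤ n → n < l i → n < l j → σ i n ≠ σ j n)
    (b : ι → ℝ) : ‖∑ i ∈ S, b i • sp (σ i) (k i) (l i)‖ ≤ √(∑ i ∈ S, b i ^ 2) := by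
  apply norm_le_of_sq S _ b (fun i x => sp (σ i) (k i) (l i) x)
  · intro x
    rw [_root_.sum_apply]
    refine (Finset.abs_sum_le_sum_abs _ _).trans (Finset.sum_le_sum fun i _ => ?_)
    rw [_root_.smul_apply, smul_eq_mul, abs_mul]
  · intro x
    simp only [sp_apply]
    apply indexed
    · intro i _ h; exact isSeg_pc' h
    · intro i hi j hj hij
      exact disj_pc fun n h3 h4 h5 h6 => hd i hi j hj hij n h3 h4 h5 h6

open Classical in
/-- the moving coordinates -/
noncomputable def Mk (s : ℕ → Br → Br) (K : ℕ → ℕ) (J : Tree → Set Br) (a : Tree) : Finset ℕ :=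
  (Finset.range (K (lev a))).filter (fun k => InjOn (s k) (J a))

lemma mem_Mk {s : ℕ → Br → Br} {K : ℕ → ℕ} {J : Tree → Set Br} {a : Tree} {k : ℕ} :
    k ∈ Mk s K J a ↔ k < K (lev a) ∧ InjOn (s k) (J a) := by
  classical
  unfold Mk
  rw [Finset.mem_filter, Finset.mem_range]

/-- the last letter -/
def lst (β : Tree) : Bool := (show List Bool from β).getLastD false

lemma eq_of_par {α β : Tree} (hα : 1 ≤ lev α) (hβ : 1 ≤ lev β) (hp : par α = par β)
    (hl : lst α = lst β) : α = β := by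
  rw [lev_tree] at hα hβ
  have h1 : (show List Bool from α) ≠ [] := by
    intro h
    rw [h] at hα
    simp at hα
  have h2 : (show List Bool from β) ≠ [] := by
    intro h
    rw [h] at hβ
    simp at hβ
  have e1 := List.dropLast_append_getLast h1
  have e2 := List.dropLast_append_getLast h2
  have e3 : (show List Bool from α).getLast h1 = (show List Bool from β).getLast h2 := by
    have e4 : (show List Bool from α).getLastD false = (show List Bool from α).getLast h1 := by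
      rw [List.getLastD_eq_getLast?, List.getLast?_eq_getLast_of_ne_nil h1]; rfl
    have e5 : (show List Bool from β).getLastD false = (show List Bool from β).getLast h2 := by
      rw [List.getLastD_eq_getLast?, List.getLast?_eq_getLast_of_ne_nil h2]; rfl
    rw [← e4, ← e5]
    exact hl
  have e6 : (show List Bool from α).dropLast = (show List Bool from β).dropLast := hp
  have : (show List Bool from α) = (show List Bool from β) := by
    rw [← e1, ← e2, e3, e6]
  exact this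

/-- Disjoint segments off the root. -/
structure Segs {ι : Type*} (S : Finset ι) (al be : ι → Tree) : Prop where
  le : ∀ j ∈ S, al j ≤ be j
  pos : ∀ j ∈ S, 1 ≤ lev (al j)
  disj : ∀ i ∈ S, ∀ j ∈ S, i ≠ j → ∀ γ, al i ≤ γ → γ ≤ be i → al j ≤ γ → γ ≤ be j → False

lemma Segs.sub {ι : Type*} {S S' : Finset ι} {al be : ι → Tree} (h : Segs S al be) (hS : S' ⊆ S) :
    Segs S' al be :=
  ⟨fun j hj => h.le j (hS hj), fun j hj => h.pos j (hS hj),
    fun i hi j hj => h.disj i (hS hi) j (hS hj)⟩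

section upper

variable {A : Set Br} {z : Br → D Tree} {s : ℕ → Br → Br} {δ : ℕ → ℝ} {K m : ℕ → ℕ}
    {J : Tree → Set Br} {c : Tree → Br} {H : ℕ → Finset Br}

lemma sum_lam_sq (hinj : ∀ c, Function.Injective fun k => s k c) (d : Br) (F : Finset ℕ) :
    ∑ k ∈ F, (lam z s k d) ^ 2 ≤ ‖z d‖ ^ 2 := by
  classical
  have := sum_Lm_sq (z d) (F.image (fun k => s k d))
  rwa [Finset.sum_image (fun a _ b _ h => hinj d h)] at this

lemma sq_bound (h : Sys A z s δ K m J c H) (hF : Fam A z s) {M : ℝ} (hM : ∀ d ∈ A, ‖z d‖ ≤ M)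
    {ι : Type*} (S : Finset ι) (b : ι → ℝ) (a : ι → Tree) :
    √(∑ p ∈ S.sigma (fun j => Mk s K J (a j)), (b p.1 * lam z s p.2 (c (a p.1))) ^ 2) ≤
      M * √(∑ j ∈ S, b j ^ 2) := by
  have hM0 : 0 ≤ M := (norm_nonneg _).trans (hM (c (show Tree from ([] : List Bool))) (h.subA _ (h.mem _)))
  rw [Finset.sum_sigma, ← Real.sqrt_sq hM0, ← Real.sqrt_mul (sq_nonneg M)]
  apply Real.sqrt_le_sqrt
  rw [Finset.mul_sum]
  apply Finset.sum_le_sum
  intro j _
  simp_rw [mul_pow]
  rw [← Finset.mul_sum, mul_comm]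
  apply mul_le_mul_of_nonneg_right _ (sq_nonneg _)
  refine (sum_lam_sq hF.inj _ _).trans ?_
  exact pow_le_pow_left₀ (norm_nonneg _) (hM _ (h.subA _ (h.mem _))) 2

/-- first kind of tails -/
lemma V1_le (h : Sys A z s δ K m J c H) (hF : Fam A z s) {M : ℝ} (hM : ∀ d ∈ A, ‖z d‖ ≤ M)
    {ι : Type*} (S : Finset ι) (b : ι → ℝ) (a : ι → Tree) (ha : ∀ i ∈ S, ∀ j ∈ S, a i = a j → i = j) :
    ‖∑ p ∈ S.sigma (fun j => Mk s K J (a j)), (b p.1 * lam z s p.2 (c (a p.1))) •
      sg (br (s p.2 (c (a p.1)))) (m (lev (a p.1)))‖ ≤ M * √(∑ j ∈ S, b j ^ 2) := by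
  refine le_trans ?_ (sq_bound h hF hM S b a)
  apply norm_sum_tails_le (S.sigma (fun j => Mk s K J (a j))) (fun p => br (s p.2 (c (a p.1))))
    (fun p => m (lev (a p.1))) _ (fun p => b p.1 * lam z s p.2 (c (a p.1)))
  have key : ∀ i ∈ S, ∀ k ∈ Mk s K J (a i), ∀ j ∈ S, ∀ l ∈ Mk s K J (a j), ¬ (i = j ∧ k = l) →
      lev (a i) ≤ lev (a j) → ∀ n, m (lev (a j)) ≤ n →
      br (s k (c (a i))) n ≠ br (s l (c (a j))) n := by
    intro i hi k hk j hj l hl hne hle n hn
    rw [mem_Mk] at hk hl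
    exact h.ne hle hk.1 hl.1 hl.2 (fun h' => hne ⟨ha i hi j hj h'.1, h'.2⟩) hn
  rintro ⟨i, k⟩ hp ⟨j, l⟩ hq hne n hn1 hn2
  rw [Finset.mem_sigma] at hp hq
  have hne' : ¬ (i = j ∧ k = l) := by
    rintro ⟨rfl, rfl⟩; exact hne rfl
  rcases le_total (lev (a i)) (lev (a j)) with hle | hle
  · exact key i hp.1 k hp.2 j hq.1 l hq.2 hne' hle n hn2
  · exact (key j hq.1 l hq.2 i hp.1 k hp.2 (fun h' => hne' ⟨h'.1.symm, h'.2.symm⟩) hle n hn1).symm

/-- second kind of tails -/
lemma V2_le (h : Sys A z s δ K m J c H) (hF : Fam A z s) {M : ℝ} (hM : ∀ d ∈ A, ‖z d‖ ≤ M)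
    {ι : Type*} (S : Finset ι) (b : ι → ℝ) {al be : ι → Tree} (hS : Segs S al be) :
    ‖∑ p ∈ S.sigma (fun j => Mk s K J (par (al j))), (b p.1 * lam z s p.2 (c (par (al p.1)))) •
      sg (br (s p.2 (c (be p.1)))) (m (lev (al p.1)))‖ ≤ M * √(∑ j ∈ S, b j ^ 2) := by
  refine le_trans ?_ (sq_bound h hF hM S b (fun j => par (al j)))
  apply norm_sum_tails_le (S.sigma (fun j => Mk s K J (par (al j)))) (fun p => br (s p.2 (c (be p.1))))
    (fun p => m (lev (al p.1))) _ (fun p => b p.1 * lam z s p.2 (c (par (al p.1))))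
  have key : ∀ i ∈ S, ∀ k ∈ Mk s K J (par (al i)), ∀ j ∈ S, ∀ l ∈ Mk s K J (par (al j)),
      ¬ (i = j ∧ k = l) → lev (al i) ≤ lev (al j) → ∀ n, m (lev (al j)) ≤ n →
      br (s k (c (be i))) n ≠ br (s l (c (be j))) n := by
    intro i hi k hk j hj l hl hne hle n hn
    rw [mem_Mk] at hk hl
    apply br_ne_of _ hn
    have hparj : lev (par (al j)) ≤ lev (al j) := lev_mono (par_le _)
    have hpari : lev (par (al i)) ≤ lev (al i) := lev_mono (par_le _)
    have hlK : l < K (lev (al j)) := hl.1.trans_le (h.Km hparj)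
    have hlinj : InjOn (s l) (J (al j)) := hl.2.mono (h.sub _ _ (par_le _))
    rw [h.node (al j) (c (be j)) (h.sub _ _ (hS.le j hj) (h.mem _)) l hlK]
    rcases le_or_gt (lev (al j)) (lev (be i)) with hc | hc
    · obtain ⟨γ, hγ1, hγ2⟩ := exists_pred (be i) hc
      have hγ3 : al i ≤ γ := by
        rcases Forest.comp _ _ _ (hS.le i hi) hγ1 with h' | h'
        · exact h'
        · exact (eq_of_lev h' (by rw [hγ2]; exact hle)).symm.le
      have hkK : k < K (lev γ) := hk.1.trans_le (h.Km (by rw [hγ2]; exact hpari.trans hle))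
      have e1 := h.node γ (c (be i)) (h.sub _ _ hγ1 (h.mem _)) k hkK
      rw [hγ2] at e1
      rw [e1]
      apply h.ne hγ2.le hkK hlK hlinj _ le_rfl
      rintro ⟨h1, h2⟩
      by_cases hij : i = j
      · exact hne ⟨hij, h2⟩
      · exact hS.disj i hi j hj hij γ hγ3 hγ1 h1.symm.le (h1 ▸ hS.le j hj)
    · have hkK : k < K (lev (be i)) :=
        hk.1.trans_le (h.Km (lev_mono ((par_le _).trans (hS.le i hi))))
      apply h.ne hc.le hkK hlK hlinj _ le_rfl
      rintro ⟨h1, -⟩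
      rw [h1] at hc
      exact lt_irrefl _ hc
  rintro ⟨i, k⟩ hp ⟨j, l⟩ hq hne n hn1 hn2
  rw [Finset.mem_sigma] at hp hq
  have hne' : ¬ (i = j ∧ k = l) := by
    rintro ⟨rfl, rfl⟩; exact hne rfl
  rcases le_total (lev (al i)) (lev (al j)) with hle | hle
  · exact key i hp.1 k hp.2 j hq.1 l hq.2 hne' hle n hn2
  · exact (key j hq.1 l hq.2 i hp.1 k hp.2 (fun h' => hne' ⟨h'.1.symm, h'.2.symm⟩) hle n hn1).symm

/-- first pieces -/
lemma V3_le (h : Sys A z s δ K m J c H) (hF : Fam A z s) {M : ℝ} (hM : ∀ d ∈ A, ‖z d‖ ≤ M)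
    {ι : Type*} (S : Finset ι) (b : ι → ℝ) {al be : ι → Tree} (hS : Segs S al be)
    (ha : ∀ i ∈ S, ∀ j ∈ S, par (al i) = par (al j) → i = j) :
    ‖∑ p ∈ S.sigma (fun j => Mk s K J (par (al j))), (b p.1 * lam z s p.2 (c (par (al p.1)))) •
      sp (br (s p.2 (c (be p.1)))) (m (lev (par (al p.1)))) (m (lev (al p.1)))‖ ≤
      M * √(∑ j ∈ S, b j ^ 2) := by
  refine le_trans ?_ (sq_bound h hF hM S b (fun j => par (al j)))
  apply norm_sum_sp_le (S.sigma (fun j => Mk s K J (par (al j)))) (fun p => br (s p.2 (c (be p.1))))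
    (fun p => m (lev (par (al p.1)))) (fun p => m (lev (al p.1))) _
    (fun p => b p.1 * lam z s p.2 (c (par (al p.1))))
  rintro ⟨i, k⟩ hp ⟨j, l⟩ hq hne n hn1 hn2 hn3 hn4
  rw [Finset.mem_sigma] at hp hq
  obtain ⟨hi, hk⟩ := hp
  obtain ⟨hj, hl⟩ := hq
  simp only at hi hj hk hl hn1 hn2 hn3 hn4 ⊢
  rw [mem_Mk] at hk hl
  have hne' : ¬ (i = j ∧ k = l) := by
    rintro ⟨rfl, rfl⟩; exact hne rfl
  have hpi := hS.pos i hi
  have hpj := hS.pos j hj
  have h1 : lev (par (al i)) = lev (par (al j)) := by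
    have e1 := h.mm.lt_iff_lt.1 (hn1.trans_lt hn4)
    have e2 := h.mm.lt_iff_lt.1 (hn2.trans_lt hn3)
    rw [lev_par] at e1 e2 ⊢
    rw [lev_par]
    omega
  apply br_ne_of _ hn1
  rw [h.node (par (al i)) (c (be i)) (h.sub _ _ ((par_le _).trans (hS.le i hi)) (h.mem _)) k hk.1]
  have e3 := h.node (par (al j)) (c (be j)) (h.sub _ _ ((par_le _).trans (hS.le j hj)) (h.mem _)) l hl.1
  rw [← h1] at e3
  rw [e3]
  exact h.ne h1.le hk.1 hl.1 hl.2 (fun h' => hne' ⟨ha i hi j hj h'.1, h'.2⟩) (by rw [h1])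

open Classical in
/-- the structure of the increments -/
lemma incr (h : Sys A z s δ K m J c H) {a : Tree} {d : Br} (hd : d ∈ J a) :
    ‖z d - z (c a) - ∑ k ∈ Mk s K J a, lam z s k (c a) •
      (sg (br (s k d)) (m (lev a)) - sg (br (s k (c a))) (m (lev a)))‖ ≤ 3 * δ (lev a) := by
  have e1 := h.est a d hd
  have e2 := h.est a (c a) (h.mem a)
  have e3 : ‖cut (z d - z (c a)) (lo Tree (m (lev a)))‖ ≤ δ (lev a) := by
    refine le_trans (norm_cut_mono _ ?_) (h.low a d hd)
    intro i (hi : lev i < m (lev a))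
    exact (hi.trans (Nat.lt_succ_self _) : lev i < m (lev a) + 1)
  have e4 : ∑ k ∈ Mk s K J a, lam z s k (c a) •
      (sg (br (s k d)) (m (lev a)) - sg (br (s k (c a))) (m (lev a))) =
      ∑ k ∈ Finset.range (K (lev a)), lam z s k (c a) • sg (br (s k d)) (m (lev a)) -
      ∑ k ∈ Finset.range (K (lev a)), lam z s k (c a) • sg (br (s k (c a))) (m (lev a)) := by
    rw [← Finset.sum_sub_distrib]
    have e5 : ∑ k ∈ Finset.range (K (lev a)), (lam z s k (c a) • sg (br (s k d)) (m (lev a)) -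
        lam z s k (c a) • sg (br (s k (c a))) (m (lev a))) = ∑ k ∈ Finset.range (K (lev a)), lam z s k (c a) •
        (sg (br (s k d)) (m (lev a)) - sg (br (s k (c a))) (m (lev a))) :=
      Finset.sum_congr rfl fun k _ => by rw [smul_sub]
    rw [e5]
    apply Finset.sum_subset (Finset.filter_subset _ _)
    intro k hk hk'
    rw [Finset.mem_range] at hk
    rcases h.dich a k hk with h1 | h1
    · exact absurd (mem_Mk.2 ⟨hk, h1⟩) hk'
    · rw [h1 d hd, sub_self, smul_zero]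
  rw [e4]
  have e6 : z d - z (c a) - (∑ k ∈ Finset.range (K (lev a)), lam z s k (c a) • sg (br (s k d)) (m (lev a)) -
      ∑ k ∈ Finset.range (K (lev a)), lam z s k (c a) • sg (br (s k (c a))) (m (lev a))) =
      cut (z d - z (c a)) (lo Tree (m (lev a))) +
      (cut (z d) (lv Tree (m (lev a))) -
        ∑ k ∈ Finset.range (K (lev a)), lam z s k (c a) • sg (br (s k d)) (m (lev a))) -
      (cut (z (c a)) (lv Tree (m (lev a))) -
        ∑ k ∈ Finset.range (K (lev a)), lam z s k (c a) • sg (br (s k (c a))) (m (lev a))) := by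
    nth_rewrite 1 [← cut_lo_add (z d) (m (lev a))]
    nth_rewrite 1 [← cut_lo_add (z (c a)) (m (lev a))]
    rw [cut_sub]
    abel
  rw [e6]
  have n1 := norm_sub_le (cut (z d - z (c a)) (lo Tree (m (lev a))) +
      (cut (z d) (lv Tree (m (lev a))) -
        ∑ k ∈ Finset.range (K (lev a)), lam z s k (c a) • sg (br (s k d)) (m (lev a))))
      (cut (z (c a)) (lv Tree (m (lev a))) -
        ∑ k ∈ Finset.range (K (lev a)), lam z s k (c a) • sg (br (s k (c a))) (m (lev a)))
  have n2 := norm_add_le (cut (z d - z (c a)) (lo Tree (m (lev a))))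
      (cut (z d) (lv Tree (m (lev a))) -
        ∑ k ∈ Finset.range (K (lev a)), lam z s k (c a) • sg (br (s k d)) (m (lev a)))
  linarith

open Classical in
/-- a sum over `S` is split by the last letters -/
lemma split_lst {ι : Type*} {S : Finset ι} {al be : ι → Tree} (hS : Segs S al be)
    (V : Finset ι → D Tree) (hV : ∀ S1 S2 : Finset ι, Disjoint S1 S2 → V (S1 ∪ S2) = V S1 + V S2)
    (b : ι → ℝ) {M : ℝ} (hM : 0 ≤ M)
    (hb : ∀ S' ⊆ S, (∀ i ∈ S', ∀ j ∈ S', par (al i) = par (al j) → i = j) →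
      ‖V S'‖ ≤ M * √(∑ j ∈ S', b j ^ 2)) : ‖V S‖ ≤ 2 * (M * √(∑ j ∈ S, b j ^ 2)) := by
  have key : ∀ e : Bool, ‖V (S.filter fun j => lst (al j) = e)‖ ≤ M * √(∑ j ∈ S, b j ^ 2) := by
    intro e
    refine (hb _ (Finset.filter_subset _ _) ?_).trans ?_
    · intro i hi j hj hij
      rw [Finset.mem_filter] at hi hj
      have h1 : al i = al j := eq_of_par (hS.pos i hi.1) (hS.pos j hj.1) hij (hi.2.trans hj.2.symm)
      by_contra hne
      exact hS.disj i hi.1 j hj.1 hne (al i) le_rfl (hS.le i hi.1) h1.symm.le (h1 ▸ hS.le j hj.1)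
    · apply mul_le_mul_of_nonneg_left _ hM
      apply Real.sqrt_le_sqrt
      exact Finset.sum_le_sum_of_subset_of_nonneg (Finset.filter_subset _ _) fun _ _ _ => sq_nonneg _
  have e1 : S = (S.filter fun j => lst (al j) = true) ∪ (S.filter fun j => lst (al j) = false) := by
    ext j
    rw [Finset.mem_union, Finset.mem_filter, Finset.mem_filter]
    cases lst (al j) <;> simp
  have e2 : Disjoint (S.filter fun j => lst (al j) = true) (S.filter fun j => lst (al j) = false) := by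
    rw [Finset.disjoint_left]
    intro j h1 h2
    rw [Finset.mem_filter] at h1 h2
    rw [h1.2] at h2
    exact Bool.noConfusion h2.2
  rw [e1, hV _ _ e2, ← e1]
  have := norm_add_le (V (S.filter fun j => lst (al j) = true)) (V (S.filter fun j => lst (al j) = false))
  have := key true
  have := key false
  linarith

open Classical in
theorem upper (h : Sys A z s δ K m J c H) (hF : Fam A z s) {M : ℝ} (hM : ∀ d ∈ A, ‖z d‖ ≤ M)
    {η : ℝ} (hη : ∀ F : Finset Tree, ∑ α ∈ F, δ (lev (par α)) ≤ η)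
    {ι : Type*} (S : Finset ι) (b : ι → ℝ) {al be : ι → Tree} (hS : Segs S al be) :
    ‖∑ j ∈ S, b j • (z (c (be j)) - z (c (par (al j))))‖ ≤
      (3 * η + 5 * M) * √(∑ j ∈ S, b j ^ 2) := by
  have hM0 : 0 ≤ M := (norm_nonneg _).trans (hM (c (show Tree from ([] : List Bool))) (h.subA _ (h.mem _)))
  let R : ι → D Tree := fun j => z (c (be j)) - z (c (par (al j))) -
    ∑ k ∈ Mk s K J (par (al j)), lam z s k (c (par (al j))) •
      (sg (br (s k (c (be j)))) (m (lev (par (al j)))) -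
        sg (br (s k (c (par (al j))))) (m (lev (par (al j)))))
  have hR : ∀ j ∈ S, ‖R j‖ ≤ 3 * δ (lev (par (al j))) := fun j hj =>
    incr h (h.sub _ _ ((par_le _).trans (hS.le j hj)) (h.mem _))
  let V1 : Finset ι → D Tree := fun S => ∑ p ∈ S.sigma (fun j => Mk s K J (par (al j))),
    (b p.1 * lam z s p.2 (c (par (al p.1)))) • sg (br (s p.2 (c (par (al p.1))))) (m (lev (par (al p.1))))
  let V2 : Finset ι → D Tree := fun S => ∑ p ∈ S.sigma (fun j => Mk s K J (par (al j))),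
    (b p.1 * lam z s p.2 (c (par (al p.1)))) • sg (br (s p.2 (c (be p.1)))) (m (lev (al p.1)))
  let V3 : Finset ι → D Tree := fun S => ∑ p ∈ S.sigma (fun j => Mk s K J (par (al j))),
    (b p.1 * lam z s p.2 (c (par (al p.1)))) •
      sp (br (s p.2 (c (be p.1)))) (m (lev (par (al p.1)))) (m (lev (al p.1)))
  have hadd : ∀ (f : (Σ _ : ι, ℕ) → D Tree) (S1 S2 : Finset ι), Disjoint S1 S2 →
      ∑ p ∈ (S1 ∪ S2).sigma (fun j => Mk s K J (par (al j))), f p =
      ∑ p ∈ S1.sigma (fun j => Mk s K J (par (al j))), f p +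
      ∑ p ∈ S2.sigma (fun j => Mk s K J (par (al j))), f p := by
    intro f S1 S2 hd
    rw [Finset.sum_sigma, Finset.sum_sigma, Finset.sum_sigma, Finset.sum_union hd]
  have n1 : ‖V1 S‖ ≤ 2 * (M * √(∑ j ∈ S, b j ^ 2)) :=
    split_lst hS V1 (fun S1 S2 hd => hadd _ S1 S2 hd) b hM0
      fun S' _ hinj => V1_le h hF hM S' b (fun j => par (al j)) hinj
  have n3 : ‖V3 S‖ ≤ 2 * (M * √(∑ j ∈ S, b j ^ 2)) :=
    split_lst hS V3 (fun S1 S2 hd => hadd _ S1 S2 hd) b hM0
      fun S' hS' hinj => V3_le h hF hM S' b (hS.sub hS') hinj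
  have n2 : ‖V2 S‖ ≤ M * √(∑ j ∈ S, b j ^ 2) := V2_le h hF hM S b hS
  have e1 : ∑ j ∈ S, b j • (z (c (be j)) - z (c (par (al j)))) =
      ∑ j ∈ S, b j • R j + V3 S + V2 S - V1 S := by
    have e2 : V3 S + V2 S - V1 S = ∑ j ∈ S, b j • ∑ k ∈ Mk s K J (par (al j)), lam z s k (c (par (al j))) •
      (sg (br (s k (c (be j)))) (m (lev (par (al j)))) -
        sg (br (s k (c (par (al j))))) (m (lev (par (al j))))) := by
      simp only [V1, V2, V3]
      rw [← Finset.sum_add_distrib, ← Finset.sum_sub_distrib, Finset.sum_sigma]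
      apply Finset.sum_congr rfl
      intro j hj
      rw [Finset.smul_sum]
      apply Finset.sum_congr rfl
      intro k _
      have hle : m (lev (par (al j))) ≤ m (lev (al j)) := h.mm.monotone (lev_mono (par_le _))
      rw [← sg_sub hle]
      ext x
      simp only [_root_.sub_apply, _root_.add_apply, _root_.smul_apply, smul_eq_mul]
      ring
    rw [add_sub_assoc, add_assoc, ← add_sub_assoc, e2, ← Finset.sum_add_distrib]
    apply Finset.sum_congr rfl
    intro j _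
    rw [← smul_add]
    congr 1
    simp only [R]
    abel
  rw [e1]
  have n4 : ‖∑ j ∈ S, b j • R j‖ ≤ 3 * η * √(∑ j ∈ S, b j ^ 2) := by
    refine (norm_sum_le _ _).trans ?_
    have h1 : ∀ j ∈ S, ‖b j • R j‖ ≤ √(∑ j ∈ S, b j ^ 2) * (3 * δ (lev (par (al j)))) := by
      intro j hj
      rw [norm_smul, Real.norm_eq_abs]
      apply mul_le_mul _ (hR j hj) (norm_nonneg _) (Real.sqrt_nonneg _)
      apply Real.abs_le_sqrt
      exact Finset.single_le_sum (f := fun j => b j ^ 2) (fun _ _ => sq_nonneg _) hj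
    refine (Finset.sum_le_sum h1).trans ?_
    rw [← Finset.mul_sum, ← Finset.mul_sum]
    have h2 : ∑ j ∈ S, δ (lev (par (al j))) = ∑ α ∈ S.image al, δ (lev (par α)) := by
      rw [Finset.sum_image]
      intro i hi j hj hij
      by_contra hne
      exact hS.disj i hi j hj hne (al i) le_rfl (hS.le i hi) hij.symm.le (hij ▸ hS.le j hj)
    rw [h2]
    have h3 := hη (S.image al)
    have h4 := Real.sqrt_nonneg (∑ j ∈ S, b j ^ 2)
    nlinarith
  have n5 := norm_sub_le (∑ j ∈ S, b j • R j + V3 S + V2 S) (V1 S)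
  have n6 := norm_add_le (∑ j ∈ S, b j • R j + V3 S) (V2 S)
  have n7 := norm_add_le (∑ j ∈ S, b j • R j) (V3 S)
  linarith

end upper

end Pool.Agent.U541.JT
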